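import Pool.Agent.R154.FS.Main
import Pool.Agent.R481.S2.Divisor

/-!
# Values of `2(2a-1)² + a² + 4w²` with `a` odd and divisible by a power of three
-/

set_option autoImplicit false
open Finset

namespace Pool.Agent.R154.FS.Four

open Pool.Agent.R154.FS (A card_A card_A_le prime_factor_lt)

theorem cauchy_gen {α : Type*} [DecidableEq α] (T : Finset α) (f : α → ℕ) :
    ((T.card : ℝ)) ^ 2 ≤ ((T.image f).card : ℝ) * (((T ×ˢ T).filter (fun p => f p.1 = f p.2)).card : ℝ) := by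
  classical
  set I := T.image f with hI
  set E := (T ×ˢ T).filter (fun p => f p.1 = f p.2) with hE
  have h1 : T.card = ∑ v ∈ I, (T.filter (fun p => f p = v)).card :=
    Finset.card_eq_sum_card_fiberwise (fun p hp => Finset.mem_image_of_mem _ hp)
  have h2 : E.card = ∑ v ∈ I, (T.filter (fun p => f p = v)).card ^ 2 := by
    have h3 : E.card = ∑ v ∈ I, (E.filter (fun p => f p.1 = v)).card :=
      Finset.card_eq_sum_card_fiberwise (fun p hp => by
        rw [hE, mem_coe, mem_filter, mem_product] at hp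
        exact Finset.mem_image_of_mem _ hp.1.1)
    rw [h3]
    apply Finset.sum_congr rfl
    intro v _
    rw [pow_two, ← Finset.card_product]
    congr 1
    ext p
    rw [hE]
    simp only [mem_filter, mem_product]
    constructor
    · rintro ⟨⟨⟨a, b⟩, c⟩, d⟩
      exact ⟨⟨a, d⟩, b, by rw [← c]; exact d⟩
    · rintro ⟨⟨a, b⟩, c, d⟩
      exact ⟨⟨⟨a, c⟩, by rw [b, d]⟩, b⟩
  have h4 := @sq_sum_le_card_mul_sum_sq ℕ ℝ _ _ _ _ I (fun v => ((T.filter (fun p => f p = v)).card : ℝ))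
  rw [h1, h2]
  push_cast
  exact h4

/-- the value -/
def V (P : ℕ) (p : ℕ × ℕ) : ℕ :=
  (2 * (P * p.1) - 1) ^ 2 + (2 * (P * p.1) - 1) ^ 2 + (P * p.1) ^ 2 + 4 * p.2 ^ 2

/-- the parameters -/
def T (K M : ℕ) : Finset (ℕ × ℕ) := A K ×ˢ Icc 1 M

theorem sq_bound (u L : ℤ) (h1 : 1 ≤ u) (h2 : u ≤ 2 * L) : 0 ≤ 9 * u ^ 2 - 8 * u ∧ 9 * u ^ 2 - 8 * u ≤ 36 * L ^ 2 := by
  constructor
  · nlinarith
  · nlinarith

theorem diff_bound (P K m m' : ℕ) (hP : 1 ≤ P) (h1 : 1 ≤ m) (h2 : m ≤ 2 * K) (h1' : 1 ≤ m') (h2' : m' ≤ 2 * K) :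
    (((P : ℤ) * m - P * m') * (9 * (P * m + P * m') - 8)).natAbs ≤ 36 * (P * K) ^ 2 := by
  have hPz : (1 : ℤ) ≤ P := by exact_mod_cast hP
  have a1 : (1 : ℤ) ≤ P * m := by
    have : 1 ≤ P * m := Nat.mul_pos hP h1
    exact_mod_cast this
  have a1' : (1 : ℤ) ≤ P * m' := by
    have : 1 ≤ P * m' := Nat.mul_pos hP h1'
    exact_mod_cast this
  have a2 : (P : ℤ) * m ≤ 2 * (P * K) := by
    have : P * m ≤ P * (2 * K) := Nat.mul_le_mul_left _ h2
    have h : P * m ≤ 2 * (P * K) := by linarith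
    exact_mod_cast h
  have a2' : (P : ℤ) * m' ≤ 2 * (P * K) := by
    have : P * m' ≤ P * (2 * K) := Nat.mul_le_mul_left _ h2'
    have h : P * m' ≤ 2 * (P * K) := by linarith
    exact_mod_cast h
  obtain ⟨e2, e4⟩ := sq_bound _ _ a1 a2
  obtain ⟨e3, e5⟩ := sq_bound _ _ a1' a2'
  have e1 : ((P : ℤ) * m - P * m') * (9 * (P * m + P * m') - 8) =
      (9 * (P * m) ^ 2 - 8 * (P * m)) - (9 * (P * m') ^ 2 - 8 * (P * m')) := by ring
  have e6 : |((P : ℤ) * m - P * m') * (9 * (P * m + P * m') - 8)| ≤ 36 * ((P : ℤ) * K) ^ 2 := by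
    rw [e1, abs_le]
    constructor <;> linarith
  zify
  exact e6

/-- the coincidences -/
theorem E_card (P K M D : ℕ) (hP : 1 ≤ P) (hK : 1 ≤ K)
    (hD : ∀ m : ℕ, m ≠ 0 → m ≤ 36 * (P * K) ^ 2 → m.divisors.card ≤ D) :
    ((T K M ×ˢ T K M).filter (fun p => V P p.1 = V P p.2)).card ≤ (A K).card * M + (A K).card ^ 2 * D := by
  classical
  set E := (T K M ×ˢ T K M).filter (fun p => V P p.1 = V P p.2) with hE
  have hEm : ∀ p, p ∈ E → (p.1.1 ∈ A K ∧ 1 ≤ p.1.2 ∧ p.1.2 ≤ M) ∧ (p.2.1 ∈ A K ∧ 1 ≤ p.2.2 ∧ p.2.2 ≤ M) ∧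
      V P p.1 = V P p.2 := by
    intro p hp
    rw [hE] at hp
    unfold T at hp
    simp only [mem_filter, mem_product, mem_Icc] at hp
    tauto
  have h1 : E.card ≤ (E.filter (fun p => p.1.1 = p.2.1)).card + (E.filter (fun p => p.1.1 ≠ p.2.1)).card := by
    rw [Finset.card_filter_add_card_filter_not]
  have h2 : (E.filter (fun p => p.1.1 = p.2.1)).card ≤ (A K).card * M := by
    have : (A K ×ˢ Icc 1 M).card = (A K).card * M := by
      rw [card_product, Nat.card_Icc, Nat.add_sub_cancel]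
    rw [← this]
    refine Finset.card_le_card_of_injOn (fun p => p.1) ?_ ?_
    · intro p hp
      rw [mem_coe, mem_filter] at hp
      have := hEm p hp.1
      rw [mem_coe, mem_product, mem_Icc]
      tauto
    · intro p hp p' hp' he
      rw [mem_coe, mem_filter] at hp hp'
      have h3 := (hEm p hp.1).2.2
      have h4 := (hEm p' hp'.1).2.2
      simp only at he
      have e1 : p.2.1 = p'.2.1 := by rw [← hp.2, ← hp'.2, he]
      have e2 : p.2.2 = p'.2.2 := by
        rw [he] at h3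
        have h5 : V P p.2 = V P p'.2 := h3.symm.trans h4
        unfold V at h5
        rw [e1] at h5
        have h6 : p.2.2 ^ 2 = p'.2.2 ^ 2 := by omega
        exact Nat.pow_left_injective (by norm_num : 2 ≠ 0) h6
      exact Prod.ext he (Prod.ext e1 e2)
  have h3 : (E.filter (fun p => p.1.1 ≠ p.2.1)).card ≤ (A K).card ^ 2 * D := by
    have h4 : (E.filter (fun p => p.1.1 ≠ p.2.1)).card =
        ∑ v ∈ A K ×ˢ A K, ((E.filter (fun p => p.1.1 ≠ p.2.1)).filter (fun p => (p.1.1, p.2.1) = v)).card :=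
      Finset.card_eq_sum_card_fiberwise (fun p hp => by
        rw [mem_coe, mem_filter] at hp
        have := hEm p hp.1
        rw [mem_coe, mem_product]
        tauto)
    rw [h4]
    calc ∑ v ∈ A K ×ˢ A K, ((E.filter (fun p => p.1.1 ≠ p.2.1)).filter (fun p => (p.1.1, p.2.1) = v)).card
        ≤ ∑ _v ∈ A K ×ˢ A K, D := by
          apply Finset.sum_le_sum
          rintro ⟨m, m'⟩ hmm
          rw [mem_product] at hmm
          obtain ⟨hm, hm'⟩ := hmm
          simp only at hm hm'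
          unfold A at hm hm'
          rw [mem_filter, mem_Icc] at hm hm'
          by_cases hne : m = m'
          · rw [Finset.card_eq_zero.2]
            · exact Nat.zero_le _
            · rw [Finset.filter_eq_empty_iff]
              intro p hp he
              rw [mem_filter] at hp
              simp only [Prod.mk.injEq] at he
              exact hp.2 (by rw [he.1, he.2, hne])
          · -- the difference
            set Δ : ℤ := (P * m - P * m') * (9 * (P * m + P * m') - 8) with hΔ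
            have hm1 : 1 ≤ m := by omega
            have hm1' : 1 ≤ m' := by omega
            have hPz : (1 : ℤ) ≤ P := by exact_mod_cast hP
            have hmz : (1 : ℤ) ≤ m := by exact_mod_cast hm1
            have hmz' : (1 : ℤ) ≤ m' := by exact_mod_cast hm1'
            have hPm : (1 : ℤ) ≤ P * m := by nlinarith
            have hPm' : (1 : ℤ) ≤ P * m' := by nlinarith
            have hΔ0 : Δ ≠ 0 := by
              rw [hΔ]
              apply mul_ne_zero
              · intro h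
                apply hne
                have h5 : (P : ℤ) * m = P * m' := by linarith
                have h6 : (m : ℤ) = m' := by
                  have h7 : (P : ℤ) ≠ 0 := by linarith
                  exact mul_left_cancel₀ h7 h5
                exact_mod_cast h6
              · have : (0 : ℤ) < 9 * (P * m + P * m') - 8 := by linarith
                exact this.ne'
            have hΔle : Δ.natAbs ≤ 36 * (P * K) ^ 2 := diff_bound P K m m' hP hm1 hm.1.2 hm1' hm'.1.2
            refine le_trans ?_ (hD Δ.natAbs (Int.natAbs_ne_zero.2 hΔ0) hΔle)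
            -- the key relation
            have hkey : ∀ p ∈ (E.filter (fun p => p.1.1 ≠ p.2.1)).filter (fun p => (p.1.1, p.2.1) = (m, m')),
                1 ≤ p.1.2 ∧ 1 ≤ p.2.2 ∧ Δ = 4 * (((p.2.2 : ℤ) - p.1.2) * (p.2.2 + p.1.2)) ∧ p.1.1 = m ∧ p.2.1 = m' := by
              intro p hp
              rw [mem_filter, mem_filter] at hp
              obtain ⟨⟨hp, -⟩, he⟩ := hp
              simp only [Prod.mk.injEq] at he
              have h5 := hEm p hp
              refine ⟨h5.1.2.1, h5.2.1.2.1, ?_, he.1, he.2⟩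
              have h6 := h5.2.2
              unfold V at h6
              rw [he.1, he.2] at h6
              have q1 : 1 ≤ 2 * (P * m) := by nlinarith
              have q2 : 1 ≤ 2 * (P * m') := by nlinarith
              zify [q1, q2] at h6
              rw [hΔ]
              linarith
            refine Finset.card_le_card_of_injOn (fun p => p.2.2 + p.1.2) ?_ ?_
            · intro p hp
              have h5 := hkey p hp
              rw [mem_coe, Nat.mem_divisors]
              refine ⟨?_, Int.natAbs_ne_zero.2 hΔ0⟩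
              simp only
              rw [← Int.natCast_dvd]
              push_cast
              rw [h5.2.2.1]
              exact Dvd.intro_left _ (by ring : 4 * ((p.2.2 : ℤ) - p.1.2) * ((p.2.2 : ℤ) + p.1.2) = _)
            · intro p hp p' hp' he
              have h5 := hkey p hp
              have h6 := hkey p' hp'
              simp only at he
              have hez : (p.2.2 : ℤ) + p.1.2 = p'.2.2 + p'.1.2 := by exact_mod_cast he
              have hpos : (0 : ℤ) < p.2.2 + p.1.2 := by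
                have : (1 : ℤ) ≤ p.2.2 := by exact_mod_cast h5.2.1
                have : (0 : ℤ) ≤ p.1.2 := Int.natCast_nonneg _
                linarith
              have h7 : ((p.2.2 : ℤ) - p.1.2) * (p.2.2 + p.1.2) = (p'.2.2 - p'.1.2) * (p.2.2 + p.1.2) := by
                rw [h5.2.2.1] at h6
                rw [← hez] at h6
                linarith [h6.2.2.1]
              have h8 : (p.2.2 : ℤ) - p.1.2 = p'.2.2 - p'.1.2 := mul_right_cancel₀ hpos.ne' h7
              have e1 : p.2.2 = p'.2.2 := by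
                have : (p.2.2 : ℤ) = p'.2.2 := by linarith
                exact_mod_cast this
              have e2 : p.1.2 = p'.1.2 := by
                have : (p.1.2 : ℤ) = p'.1.2 := by linarith
                exact_mod_cast this
              apply Prod.ext
              · exact Prod.ext (by rw [h5.2.2.2.1, h6.2.2.2.1]) e2
              · exact Prod.ext (by rw [h5.2.2.2.2, h6.2.2.2.2]) e1
      _ = (A K).card ^ 2 * D := by
          rw [sum_const, smul_eq_mul, card_product, pow_two]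
  omega

theorem card_T (K M : ℕ) : (T K M).card = (A K).card * M := by
  unfold T
  rw [card_product, Nat.card_Icc, Nat.add_sub_cancel]

/-- every value is a number with a good quadruple -/
theorem value_good (j K M v : ℕ) (hM : M = 3 ^ j * K) (hv : v ∈ (T K M).image (V (3 ^ j))) :
    Odd v ∧ v ≤ 40 * M ^ 2 ∧ ∃ x y z w : ℕ, v = x ^ 2 + y ^ 2 + z ^ 2 + 4 * w ^ 2 ∧
      ∀ q : ℕ, q.Prime → q ∣ 2 ^ x + 2 ^ y + 2 ^ z + 1 → 3 ^ (j + 1) < q := by
  rw [mem_image] at hv
  obtain ⟨⟨a, w⟩, hp, rfl⟩ := hv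
  unfold T A at hp
  simp only [mem_product, mem_filter, mem_Icc] at hp
  obtain ⟨⟨⟨ha1, ha2⟩, ha3⟩, hw1, hw2⟩ := hp
  set b := 3 ^ j * a with hb
  have hbodd : Odd b := (Odd.pow (by decide)).mul ha3
  have hbM : b ≤ 2 * M := by
    rw [hM, hb]
    calc 3 ^ j * a ≤ 3 ^ j * (2 * K) := Nat.mul_le_mul_left _ ha2
      _ = 2 * (3 ^ j * K) := by ring
  have hb1 : 1 ≤ b := hbodd.pos
  have hV : V (3 ^ j) (a, w) = (2 * b - 1) ^ 2 + (2 * b - 1) ^ 2 + b ^ 2 + 4 * w ^ 2 := rfl
  rw [hV]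
  refine ⟨?_, ?_, 2 * b - 1, 2 * b - 1, b, w, rfl, ?_⟩
  · have e1 : Odd (b ^ 2) := hbodd.pow
    have e2 : Even ((2 * b - 1) ^ 2 + (2 * b - 1) ^ 2) := Even.add_self _
    have e3 : Even (4 * w ^ 2) := ⟨2 * w ^ 2, by ring⟩
    exact (e2.add_odd e1).add_even e3
  · obtain ⟨d, hd⟩ : ∃ d, 2 * b - 1 = d := ⟨_, rfl⟩
    rw [hd]
    have hd4 : d ≤ 4 * M := by omega
    have h2 : d ^ 2 ≤ (4 * M) ^ 2 := Nat.pow_le_pow_left hd4 2
    have h3 : b ^ 2 ≤ (2 * M) ^ 2 := Nat.pow_le_pow_left hbM 2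
    have h4 : w ^ 2 ≤ M ^ 2 := Nat.pow_le_pow_left hw2 2
    nlinarith
  · intro q hq hqd
    have e : 2 ^ (2 * b - 1) + 2 ^ (2 * b - 1) = 2 ^ (2 * b) := by
      obtain ⟨d, hd⟩ : ∃ d, 2 * b = d + 1 := ⟨2 * b - 1, by omega⟩
      rw [hd, Nat.add_sub_cancel, pow_succ]
      ring
    rw [e, add_comm (2 ^ (2 * b))] at hqd
    exact prime_factor_lt b j q hbodd (Dvd.intro a rfl) hq hqd

theorem main (ε : ℝ) (hε : 0 < ε) : ∃ c : ℝ, 0 < c ∧ ∀ X : ℕ, ∀ B : ℝ, 1 ≤ B → B ≤ √(X : ℝ) / 8 →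
    c * (X : ℝ) ^ (1 - ε) / B ≤
      (Set.ncard {n : ℕ | n ≤ X ∧ Odd n ∧ ∃ x y z w : ℕ, n = x ^ 2 + y ^ 2 + z ^ 2 + 4 * w ^ 2 ∧
        ∀ q : ℕ, q.Prime → q ∣ 2 ^ x + 2 ^ y + 2 ^ z + 1 → B < q} : ℝ) := by
  classical
  obtain ⟨C, hC, hdiv⟩ := Pool.Agent.R481.S2.divisor_bound_real ε hε
  refine ⟨1 / (512 * (1 + 2 * C)), by positivity, fun X B hB1 hB2 => ?_⟩
  have hX8 : 8 ≤ √(X : ℝ) := by linarith
  have hX64 : (64 : ℝ) ≤ X := by
    have h := Real.sq_sqrt (Nat.cast_nonneg X : (0 : ℝ) ≤ X)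
    nlinarith
  have hX0 : (0 : ℝ) < X := by linarith
  set R : ℝ := √(X : ℝ) with hR
  have hR0 : 0 < R := by linarith
  have hRsq : R ^ 2 = X := Real.sq_sqrt (Nat.cast_nonneg X)
  -- the power of three
  set b := ⌊B⌋₊ with hb
  have hb1 : 1 ≤ b := by rw [hb]; exact Nat.le_floor (by exact_mod_cast hB1)
  set j := Nat.log 3 b with hj
  set P : ℕ := 3 ^ j with hP
  have hPb : P ≤ b := Nat.pow_log_le_self 3 (by omega)
  have hPB : (P : ℝ) ≤ B := by
    have h1 : (b : ℝ) ≤ B := Nat.floor_le (by linarith)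
    have h2 : (P : ℝ) ≤ b := by exact_mod_cast hPb
    linarith
  have hBP : B < ((3 ^ (j + 1) : ℕ) : ℝ) := by
    have h1 : b < 3 ^ (j + 1) := Nat.lt_pow_succ_log_self (by norm_num) b
    have h2 : B < (b : ℝ) + 1 := Nat.lt_floor_add_one B
    have h3 : ((b + 1 : ℕ) : ℝ) ≤ ((3 ^ (j + 1) : ℕ) : ℝ) := by exact_mod_cast h1
    push_cast at h3 ⊢
    linarith
  have hP1 : 1 ≤ P := Nat.one_le_pow _ _ (by norm_num)
  have hPr : (1 : ℝ) ≤ P := by exact_mod_cast hP1
  have hPr0 : (0 : ℝ) < P := by linarith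
  -- the length
  set κ : ℝ := R / (8 * P) with hκ
  have hκ1 : 1 ≤ κ := by
    rw [hκ, le_div_iff₀ (by positivity)]
    linarith
  set K := ⌊κ⌋₊ with hK
  have hK1 : 1 ≤ K := by rw [hK]; exact Nat.le_floor (by exact_mod_cast hκ1)
  have hKr : (1 : ℝ) ≤ K := by exact_mod_cast hK1
  have hKκ : (K : ℝ) ≤ κ := Nat.floor_le (by linarith)
  have hκK : κ / 2 ≤ (K : ℝ) := by
    have := Nat.lt_floor_add_one κ
    linarith
  set M := P * K with hM
  have hMr : (M : ℝ) = P * K := by rw [hM]; push_cast; ring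
  have hMle : (M : ℝ) ≤ R / 8 := by
    rw [hMr]
    calc (P : ℝ) * K ≤ P * κ := by gcongr
      _ = R / 8 := by rw [hκ]; field_simp
  have hM1 : 1 ≤ M := Nat.mul_pos hP1 hK1
  have hM1r : (1 : ℝ) ≤ M := by exact_mod_cast hM1
  -- the divisor bound
  have hXε : (1 : ℝ) ≤ (X : ℝ) ^ ε := Real.one_le_rpow (by linarith) hε.le
  set D := ⌊C * (X : ℝ) ^ ε⌋₊ with hD
  have hDle : (D : ℝ) ≤ C * (X : ℝ) ^ ε := Nat.floor_le (by positivity)
  have hMX : 40 * (M : ℝ) ^ 2 ≤ X := by
    have h4 : (M : ℝ) ^ 2 ≤ (R / 8) ^ 2 := by gcongr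
    nlinarith
  have hdivD : ∀ m : ℕ, m ≠ 0 → m ≤ 36 * (P * K) ^ 2 → m.divisors.card ≤ D := by
    intro m hm0 hm
    rw [hD]
    apply Nat.le_floor
    refine (hdiv m hm0).trans ?_
    have h5 : (m : ℝ) ≤ X := by
      have h6 : (m : ℝ) ≤ 36 * (M : ℝ) ^ 2 := by exact_mod_cast hm
      nlinarith
    gcongr
  have hE := E_card P K M D hP1 hK1 hdivD
  have hcs := cauchy_gen (T K M) (V P)
  set a := (A K).card with ha
  have ha2 : a ≤ 2 * M := by
    have h1 := card_A_le K
    have h2 : K ≤ M := by rw [hM]; exact Nat.le_mul_of_pos_left K hP1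
    omega
  have ha2r : (a : ℝ) ≤ 2 * M := by exact_mod_cast ha2
  have haK : (K : ℝ) / 2 ≤ a := card_A K hK1
  have ha0 : (0 : ℝ) < a := by linarith
  have hTc : (((T K M).card : ℕ) : ℝ) = a * M := by rw [card_T]; push_cast; rfl
  set I : ℝ := (((T K M).image (V P)).card : ℝ) with hI
  have hI0 : 0 ≤ I := Nat.cast_nonneg _
  have hEr : ((((T K M ×ˢ T K M).filter (fun p => V P p.1 = V P p.2)).card : ℕ) : ℝ) ≤ a * M * (1 + 2 * D) := by
    have h1 : ((((T K M ×ˢ T K M).filter (fun p => V P p.1 = V P p.2)).card : ℕ) : ℝ) ≤ a * M + a ^ 2 * D := by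
      exact_mod_cast hE
    have h2 : (a : ℝ) ^ 2 * D ≤ a * (2 * M) * D := by
      rw [pow_two]
      gcongr
    linarith
  have h1 : ((a : ℝ) * M) * (a * M) ≤ (a * M) * (I * (1 + 2 * D)) := by
    rw [hTc] at hcs
    calc ((a : ℝ) * M) * (a * M) = (a * M) ^ 2 := by ring
      _ ≤ I * _ := hcs
      _ ≤ I * (a * M * (1 + 2 * D)) := by gcongr
      _ = _ := by ring
  have h2 : (a : ℝ) * M ≤ I * (1 + 2 * D) := le_of_mul_le_mul_left h1 (by positivity)
  have h3 : (a : ℝ) * M ≤ I * ((1 + 2 * C) * (X : ℝ) ^ ε) := by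
    refine h2.trans ?_
    gcongr
    nlinarith
  have h4 : (X : ℝ) / (512 * B) ≤ a * M := by
    calc (X : ℝ) / (512 * B) ≤ (X : ℝ) / (512 * P) := by gcongr
      _ = (κ / 2 / 2) * (P * (κ / 2)) := by
          rw [hκ, ← hRsq]
          field_simp
          ring
      _ ≤ ((K : ℝ) / 2) * (P * K) := by gcongr
      _ ≤ a * (P * K) := by gcongr
      _ = a * M := by rw [hMr]
  have h5 : 1 / (512 * (1 + 2 * C)) * (X : ℝ) ^ (1 - ε) / B ≤ I := by
    rw [Real.rpow_sub hX0, Real.rpow_one]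
    have h6 := h4.trans h3
    rw [div_le_iff₀ (by positivity)] at h6
    rw [div_le_iff₀ (by positivity), div_mul_div_comm, div_le_iff₀ (by positivity), one_mul]
    calc (X : ℝ) ≤ I * ((1 + 2 * C) * (X : ℝ) ^ ε) * (512 * B) := h6
      _ = _ := by ring
  refine h5.trans ?_
  have hfin : ({n : ℕ | n ≤ X ∧ Odd n ∧ ∃ x y z w : ℕ, n = x ^ 2 + y ^ 2 + z ^ 2 + 4 * w ^ 2 ∧
        ∀ q : ℕ, q.Prime → q ∣ 2 ^ x + 2 ^ y + 2 ^ z + 1 → B < q}).Finite :=
    (Set.finite_Iic X).subset (fun n hn => hn.1)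
  have h6 := Set.ncard_le_ncard (s := (((T K M).image (V P) : Finset ℕ) : Set ℕ))
    (t := {n : ℕ | n ≤ X ∧ Odd n ∧ ∃ x y z w : ℕ, n = x ^ 2 + y ^ 2 + z ^ 2 + 4 * w ^ 2 ∧
        ∀ q : ℕ, q.Prime → q ∣ 2 ^ x + 2 ^ y + 2 ^ z + 1 → B < q}) (by
      intro v hv
      rw [mem_coe] at hv
      obtain ⟨hodd, hle, x, y, z, w, hn, hq⟩ := value_good j K M v hM hv
      refine ⟨?_, hodd, x, y, z, w, hn, fun q hq1 hq2 => ?_⟩
      · have h7 : (v : ℝ) ≤ 40 * (M : ℝ) ^ 2 := by exact_mod_cast hle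
        have h8 : (v : ℝ) ≤ X := h7.trans hMX
        exact_mod_cast h8
      · have h9 : ((3 ^ (j + 1) : ℕ) : ℝ) < q := by exact_mod_cast hq q hq1 hq2
        linarith) hfin
  rw [Set.ncard_coe_finset] at h6
  rw [hI]
  exact_mod_cast h6

end Pool.Agent.R154.FS.Four
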