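import Mathlib

/-!
# The prime factors of `2^(2a) + 2^a + 1`; the mean square of `∑_{d ∣ k} 1/d`
-/

set_option autoImplicit false
open Finset

namespace Pool.Agent.R154.FS

/-- if `a` is odd and `3 ^ j ∣ a`, all prime factors of `2^a + 2^(2a) + 1` are `≡ 1 mod 3^(j+1)` -/
theorem prime_factor (a j q : ℕ) (ha : Odd a) (hj : 3 ^ j ∣ a) (hq : q.Prime)
    (hd : q ∣ 2 ^ a + 2 ^ (2 * a) + 1) : 3 ^ (j + 1) ∣ q - 1 := by
  have : Fact q.Prime := ⟨hq⟩
  set t : ZMod q := (2 : ZMod q) ^ a with ht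
  have h0 : t ^ 2 + t + 1 = 0 := by
    have h1 : ((2 ^ a + 2 ^ (2 * a) + 1 : ℕ) : ZMod q) = 0 := (ZMod.natCast_eq_zero_iff _ _).2 hd
    push_cast at h1
    rw [ht]
    rw [mul_comm 2 a, pow_mul] at h1
    linear_combination h1
  have h3 : t ^ 3 = 1 := by linear_combination (t - 1) * h0
  have hq2 : q ≠ 2 := by
    intro h
    rw [h] at hd
    have ha1 : a ≠ 0 := by
      rintro rfl
      exact absurd ha (by decide)
    have e1 : 2 ∣ 2 ^ a := dvd_pow_self 2 ha1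
    have e2 : 2 ∣ 2 ^ (2 * a) := dvd_pow_self 2 (by omega)
    omega
  have h20 : (2 : ZMod q) ≠ 0 := by
    intro h
    have : q ∣ 2 := by
      rw [← ZMod.natCast_eq_zero_iff]
      exact_mod_cast h
    exact hq2 ((Nat.prime_dvd_prime_iff_eq hq Nat.prime_two).1 this)
  have h1 : t ≠ 1 := by
    intro h
    rw [h] at h0
    have h4 : (3 : ZMod q) = 0 := by linear_combination h0
    have h5 : q ∣ 3 := by
      rw [← ZMod.natCast_eq_zero_iff]
      exact_mod_cast h4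
    have h6 : q = 3 := (Nat.prime_dvd_prime_iff_eq hq Nat.prime_three).1 h5
    obtain ⟨b, hb⟩ := ha
    have h7 : (2 : ZMod q) = -1 := by linear_combination h4
    rw [ht, h7, Odd.neg_one_pow ⟨b, hb⟩] at h
    have h8 : (2 : ZMod q) = 0 := by linear_combination -h
    exact h20 h8
  have hord : orderOf t = 3 := orderOf_eq_prime h3 h1
  have hfin : (2 : ZMod q) ^ (q - 1) = 1 := ZMod.pow_card_sub_one_eq_one h20
  have hq1 : 0 < q - 1 := by have := hq.one_lt; omega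
  have hdvd : orderOf (2 : ZMod q) ∣ q - 1 := orderOf_dvd_of_pow_eq_one hfin
  set d := orderOf (2 : ZMod q) with hdd
  have hd0 : 0 < d := Nat.pos_of_dvd_of_pos hdvd hq1
  have ha0 : a ≠ 0 := by
    rintro rfl
    exact absurd ha (by decide)
  have hgcd : d = 3 * Nat.gcd d a := by
    have h5 : orderOf t = d / Nat.gcd d a := by
      rw [ht]
      exact orderOf_pow' _ ha0
    rw [hord] at h5
    have h6 : Nat.gcd d a ∣ d := Nat.gcd_dvd_left d a
    rw [h5, Nat.div_mul_cancel h6]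
  have key : ∀ i : ℕ, i ≤ j + 1 → 3 ^ i ∣ d := by
    intro i
    induction i with
    | zero => intro _; simp
    | succ i ih =>
      intro hi
      have e1 := ih (by omega)
      have e2 : 3 ^ i ∣ a := (pow_dvd_pow 3 (by omega)).trans hj
      have e3 : 3 ^ i ∣ Nat.gcd d a := Nat.dvd_gcd e1 e2
      rw [hgcd, pow_succ, mul_comm]
      exact Nat.mul_dvd_mul_left 3 e3
  exact (key (j + 1) le_rfl).trans hdvd

theorem prime_factor_lt (a j q : ℕ) (ha : Odd a) (hj : 3 ^ j ∣ a) (hq : q.Prime)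
    (hd : q ∣ 2 ^ a + 2 ^ (2 * a) + 1) : 3 ^ (j + 1) < q := by
  have h := prime_factor a j q ha hj hq hd
  have hq1 : 0 < q - 1 := by have := hq.one_lt; omega
  have := Nat.le_of_dvd hq1 h
  omega

/-- the sum of the reciprocals of the divisors -/
noncomputable def S (m : ℕ) : ℝ := ∑ g ∈ m.divisors, (1 : ℝ) / g

theorem S_nonneg (m : ℕ) : 0 ≤ S m := Finset.sum_nonneg fun _ _ => by positivity

theorem one_le_S (m : ℕ) (hm : 0 < m) : 1 ≤ S m := by
  unfold S
  have h := Finset.single_le_sum (s := m.divisors) (f := fun g : ℕ => (1 : ℝ) / g)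
    (fun g _ => by positivity) (Nat.one_mem_divisors.2 hm.ne')
  simpa using h

theorem S_mul (m n : ℕ) : S (m * n) ≤ S m * S n := by
  classical
  unfold S
  rw [Finset.sum_mul_sum, ← Finset.sum_product']
  set f : ℕ × ℕ → ℕ := fun p => p.1 * p.2 with hf
  have h1 : ∀ g ∈ (m * n).divisors, ∃ p ∈ m.divisors ×ˢ n.divisors, f p = g := by
    intro g hg
    rw [Nat.mem_divisors] at hg
    obtain ⟨hg, hmn⟩ := hg
    obtain ⟨a, b, ha, hb, rfl⟩ := (Nat.dvd_mul).1 hg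
    refine ⟨(a, b), ?_, rfl⟩
    rw [mem_product, Nat.mem_divisors, Nat.mem_divisors]
    exact ⟨⟨ha, left_ne_zero_of_mul hmn⟩, hb, right_ne_zero_of_mul hmn⟩
  have h2 : ∑ g ∈ (m * n).divisors, (1 : ℝ) / g ≤
      ∑ g ∈ (m * n).divisors, ∑ p ∈ (m.divisors ×ˢ n.divisors).filter (fun p => f p = g), (1 : ℝ) / (p.1 : ℝ) * (1 / (p.2 : ℝ)) := by
    apply Finset.sum_le_sum
    intro g hg
    obtain ⟨p, hp, hpg⟩ := h1 g hg
    have h3 := Finset.single_le_sum (s := (m.divisors ×ˢ n.divisors).filter (fun p => f p = g))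
      (f := fun p : ℕ × ℕ => (1 : ℝ) / (p.1 : ℝ) * (1 / (p.2 : ℝ)))
      (fun p _ => by positivity) (mem_filter.2 ⟨hp, hpg⟩)
    refine le_trans (le_of_eq ?_) h3
    rw [← hpg, hf]
    simp only
    push_cast
    rw [div_mul_div_comm, one_mul]
  refine h2.trans ?_
  refine le_of_eq (Finset.sum_fiberwise_of_maps_to (s := m.divisors ×ˢ n.divisors) (t := (m * n).divisors) (g := f)
    (fun p hp => ?_) _)
  rw [mem_product, Nat.mem_divisors, Nat.mem_divisors] at hp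
  rw [Nat.mem_divisors]
  exact ⟨Nat.mul_dvd_mul hp.1.1 hp.2.1, Nat.mul_ne_zero hp.1.2 hp.2.2⟩

theorem S_five : S 5 ≤ 2 := by
  unfold S
  have : (5 : ℕ).divisors = {1, 5} := by decide
  rw [this, Finset.sum_pair (by norm_num)]
  norm_num

theorem S_three_pow (i : ℕ) : S (3 ^ i) ≤ 2 := by
  unfold S
  rw [Nat.divisors_prime_pow Nat.prime_three, Finset.sum_map]
  simp only [Function.Embedding.coeFn_mk]
  have h : ∀ n : ℕ, ∑ x ∈ range n, (1 : ℝ) / ((3 ^ x : ℕ) : ℝ) ≤ 3 / 2 - (3 / 2) * (1 / 3 ^ n) := by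
    intro n
    induction n with
    | zero => simp
    | succ n ih =>
      rw [Finset.sum_range_succ]
      push_cast
      have e : (1 : ℝ) / 3 ^ (n + 1) = 1 / 3 * (1 / 3 ^ n) := by
        rw [pow_succ]; field_simp
      rw [e]
      push_cast at ih
      linarith
  refine (h (i + 1)).trans ?_
  have : (0 : ℝ) ≤ (3 / 2) * (1 / 3 ^ (i + 1)) := by positivity
  linarith

/-- the mean square of `S` is bounded -/
theorem S_sq_sum : ∃ C : ℝ, 0 < C ∧ ∀ Y : ℕ, ∑ k ∈ Icc 1 Y, S k ^ 2 ≤ C * Y := by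
  classical
  have hsum : Summable (fun n : ℕ => (n : ℝ) ^ (-(3 / 2) : ℝ)) := by
    rw [Real.summable_nat_rpow]
    norm_num
  set C₁ : ℝ := ∑' n : ℕ, (n : ℝ) ^ (-(3 / 2) : ℝ) with hC₁
  have hle : ∀ s : Finset ℕ, ∑ n ∈ s, (n : ℝ) ^ (-(3 / 2) : ℝ) ≤ C₁ := fun s =>
    hsum.sum_le_tsum s (fun n _ => by positivity)
  have hC1 : 0 < C₁ := by
    have h := hle {1}
    simp only [sum_singleton, Nat.cast_one, Real.one_rpow] at h
    linarith
  refine ⟨C₁ ^ 2, by positivity, fun Y => ?_⟩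
  have h1 : ∀ k ∈ Icc 1 Y, S k ^ 2 ≤ C₁ * ∑ d ∈ Icc 1 Y, (if d ∣ k then (d : ℝ) ^ (-(1 / 2) : ℝ) else 0) := by
    intro k hk
    rw [mem_Icc] at hk
    have e1 : S k = ∑ d ∈ k.divisors, (d : ℝ) ^ (-(3 / 4) : ℝ) * (d : ℝ) ^ (-(1 / 4) : ℝ) := by
      unfold S
      apply Finset.sum_congr rfl
      intro d hd
      have hd0 : (0 : ℝ) < d := by exact_mod_cast Nat.pos_of_mem_divisors hd
      rw [← Real.rpow_add hd0]
      norm_num
      rw [Real.rpow_neg_one]
    rw [e1]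
    refine (Finset.sum_mul_sq_le_sq_mul_sq _ _ _).trans ?_
    have e2 : ∑ d ∈ k.divisors, ((d : ℝ) ^ (-(3 / 4) : ℝ)) ^ 2 ≤ C₁ := by
      refine le_trans (le_of_eq ?_) (hle k.divisors)
      apply Finset.sum_congr rfl
      intro d hd
      have hd0 : (0 : ℝ) < d := by exact_mod_cast Nat.pos_of_mem_divisors hd
      rw [← Real.rpow_natCast, ← Real.rpow_mul hd0.le]
      norm_num
    have e3 : ∑ d ∈ k.divisors, ((d : ℝ) ^ (-(1 / 4) : ℝ)) ^ 2 ≤
        ∑ d ∈ Icc 1 Y, (if d ∣ k then (d : ℝ) ^ (-(1 / 2) : ℝ) else 0) := by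
      rw [← Finset.sum_filter]
      calc ∑ d ∈ k.divisors, ((d : ℝ) ^ (-(1 / 4) : ℝ)) ^ 2 = ∑ d ∈ k.divisors, (d : ℝ) ^ (-(1 / 2) : ℝ) := by
            apply Finset.sum_congr rfl
            intro d hd
            have hd0 : (0 : ℝ) < d := by exact_mod_cast Nat.pos_of_mem_divisors hd
            rw [← Real.rpow_natCast, ← Real.rpow_mul hd0.le]
            norm_num
        _ ≤ _ := by
            apply Finset.sum_le_sum_of_subset_of_nonneg
            · intro d hd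
              have h2 := Nat.pos_of_mem_divisors hd
              rw [Nat.mem_divisors] at hd
              rw [mem_filter, mem_Icc]
              have h3 := Nat.le_of_dvd (by omega) hd.1
              exact ⟨⟨h2, by omega⟩, hd.1⟩
            · intro d _ _
              positivity
    have e4 : 0 ≤ ∑ d ∈ k.divisors, ((d : ℝ) ^ (-(1 / 4) : ℝ)) ^ 2 := Finset.sum_nonneg fun _ _ => by positivity
    exact mul_le_mul e2 e3 e4 hC1.le
  calc ∑ k ∈ Icc 1 Y, S k ^ 2
      ≤ ∑ k ∈ Icc 1 Y, C₁ * ∑ d ∈ Icc 1 Y, (if d ∣ k then (d : ℝ) ^ (-(1 / 2) : ℝ) else 0) :=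
        Finset.sum_le_sum h1
    _ = C₁ * ∑ d ∈ Icc 1 Y, ∑ k ∈ Icc 1 Y, (if d ∣ k then (d : ℝ) ^ (-(1 / 2) : ℝ) else 0) := by
        rw [← Finset.mul_sum, Finset.sum_comm]
    _ ≤ C₁ * ∑ d ∈ Icc 1 Y, (Y : ℝ) * (d : ℝ) ^ (-(3 / 2) : ℝ) := by
        apply mul_le_mul_of_nonneg_left _ hC1.le
        apply Finset.sum_le_sum
        intro d hd
        rw [mem_Icc] at hd
        have hd0 : (0 : ℝ) < d := by
          have : 0 < d := by omega
          exact_mod_cast this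
        rw [← Finset.sum_filter, sum_const, nsmul_eq_mul]
        have h2 : (Icc 1 Y).filter (fun k => d ∣ k) = (Ioc 0 Y).filter (fun k => d ∣ k) := by
          ext z
          simp only [mem_filter, mem_Icc, mem_Ioc]
          omega
        rw [h2, Nat.Ioc_filter_dvd_card_eq_div]
        have h3 : ((Y / d : ℕ) : ℝ) ≤ Y / d := Nat.cast_div_le
        calc ((Y / d : ℕ) : ℝ) * (d : ℝ) ^ (-(1 / 2) : ℝ) ≤ (Y / d) * (d : ℝ) ^ (-(1 / 2) : ℝ) := by gcongr
          _ = Y * ((d : ℝ) ^ (-1 : ℝ) * (d : ℝ) ^ (-(1 / 2) : ℝ)) := by rw [Real.rpow_neg_one]; ring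
          _ = Y * (d : ℝ) ^ (-(3 / 2) : ℝ) := by
              rw [← Real.rpow_add hd0]
              norm_num
    _ ≤ C₁ ^ 2 * Y := by
        rw [← Finset.mul_sum]
        have := hle (Icc 1 Y)
        have hY : (0 : ℝ) ≤ Y := Nat.cast_nonneg Y
        calc C₁ * ((Y : ℝ) * ∑ i ∈ Icc 1 Y, (i : ℝ) ^ (-(3 / 2) : ℝ)) ≤ C₁ * (Y * C₁) := by gcongr
          _ = C₁ ^ 2 * Y := by ring

theorem harm (n : ℕ) : ∑ g ∈ Icc 1 n, (1 : ℝ) / g ≤ 1 + Real.log n := by
  have h := harmonic_le_one_add_log n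
  rw [harmonic_eq_sum_Icc] at h
  push_cast at h
  simpa [one_div] using h

end Pool.Agent.R154.FS
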