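import Pool.Agent.R154.FS.Quad
import Pool.Agent.R154.FS.Sig

/-!
# Many values of `(5 a² + s² + t²) / 2`
-/

set_option autoImplicit false
open Finset

namespace Pool.Agent.R154.FS

/-- the odd numbers of `[K, 2K]` -/
def A (K : ℕ) : Finset ℕ := (Icc K (2 * K)).filter Odd
/-- the odd numbers of `[1, M]` -/
def So (M : ℕ) : Finset ℕ := (Icc 1 M).filter Odd
/-- the even numbers of `[1, M]` -/
def Se (M : ℕ) : Finset ℕ := (Icc 1 M).filter Even

theorem card_A (K : ℕ) (hK : 1 ≤ K) : (K : ℝ) / 2 ≤ ((A K).card : ℝ) := by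
  have h : (Icc (K / 2) (K - 1)).card ≤ (A K).card := by
    refine Finset.card_le_card_of_injOn (fun i => 2 * i + 1) ?_ ?_
    · intro i hi
      rw [mem_coe, mem_Icc] at hi
      unfold A
      rw [mem_coe, mem_filter, mem_Icc]
      simp only
      refine ⟨⟨?_, ?_⟩, ⟨i, rfl⟩⟩
      · omega
      · omega
    · intro i _ i' _ he
      simp only at he
      omega
  rw [Nat.card_Icc] at h
  have h2 : K ≤ 2 * (A K).card := by omega
  have h3 : (K : ℝ) ≤ 2 * ((A K).card : ℝ) := by exact_mod_cast h2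
  linarith

theorem card_A_le (K : ℕ) : (A K).card ≤ K + 1 := by
  unfold A
  refine (Finset.card_filter_le _ _).trans ?_
  rw [Nat.card_Icc]
  omega

theorem card_So (M : ℕ) : (M : ℝ) / 2 ≤ ((So M).card : ℝ) := by
  have h : (range ((M + 1) / 2)).card ≤ (So M).card := by
    refine Finset.card_le_card_of_injOn (fun i => 2 * i + 1) ?_ ?_
    · intro i hi
      rw [mem_coe, mem_range] at hi
      unfold So
      rw [mem_coe, mem_filter, mem_Icc]
      simp only
      refine ⟨⟨?_, ?_⟩, ⟨i, rfl⟩⟩ <;> omega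
    · intro i _ i' _ he
      simp only at he
      omega
  rw [card_range] at h
  have h2 : M ≤ 2 * (So M).card := by omega
  have h3 : (M : ℝ) ≤ 2 * ((So M).card : ℝ) := by exact_mod_cast h2
  linarith

theorem card_Se (M : ℕ) (hM : 2 ≤ M) : (M : ℝ) / 3 ≤ ((Se M).card : ℝ) := by
  have h : (Icc 1 (M / 2)).card ≤ (Se M).card := by
    refine Finset.card_le_card_of_injOn (fun i => 2 * i) ?_ ?_
    · intro i hi
      rw [mem_coe, mem_Icc] at hi
      unfold Se
      rw [mem_coe, mem_filter, mem_Icc]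
      simp only
      refine ⟨⟨?_, ?_⟩, even_two_mul i⟩ <;> omega
    · intro i _ i' _ he
      simp only at he
      omega
  rw [Nat.card_Icc] at h
  have h2 : M ≤ 3 * (Se M).card := by omega
  have h3 : (M : ℝ) ≤ 3 * ((Se M).card : ℝ) := by exact_mod_cast h2
  linarith

/-- the parameters -/
def T (K M : ℕ) : Finset (ℕ × (ℕ × ℕ)) := A K ×ˢ (So M ×ˢ Se M)

/-- the value -/
def V (P : ℕ) (p : ℕ × (ℕ × ℕ)) : ℕ := 5 * (P * p.1) ^ 2 + p.2.1 ^ 2 + p.2.2 ^ 2

/-- the coincidences -/
def E (P K M : ℕ) : Finset ((ℕ × (ℕ × ℕ)) × (ℕ × (ℕ × ℕ))) :=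
  (T K M ×ˢ T K M).filter (fun p => V P p.1 = V P p.2)

theorem cauchy (P K M : ℕ) :
    (((T K M).card : ℝ)) ^ 2 ≤ (((T K M).image (V P)).card : ℝ) * ((E P K M).card : ℝ) := by
  classical
  set I := (T K M).image (V P) with hI
  have h1 : (T K M).card = ∑ v ∈ I, ((T K M).filter (fun p => V P p = v)).card :=
    Finset.card_eq_sum_card_fiberwise (fun p hp => Finset.mem_image_of_mem _ hp)
  have h2 : (E P K M).card = ∑ v ∈ I, ((T K M).filter (fun p => V P p = v)).card ^ 2 := by
    have h3 : (E P K M).card = ∑ v ∈ I, ((E P K M).filter (fun p => V P p.1 = v)).card :=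
      Finset.card_eq_sum_card_fiberwise (fun p hp => by
        unfold E at hp
        rw [mem_coe, mem_filter, mem_product] at hp
        exact Finset.mem_image_of_mem _ hp.1.1)
    rw [h3]
    apply Finset.sum_congr rfl
    intro v _
    rw [pow_two, ← Finset.card_product]
    congr 1
    ext p
    unfold E
    simp only [mem_filter, mem_product]
    constructor
    · rintro ⟨⟨⟨a, b⟩, c⟩, d⟩
      exact ⟨⟨a, d⟩, b, by rw [← c]; exact d⟩
    · rintro ⟨⟨a, b⟩, c, d⟩
      exact ⟨⟨⟨a, c⟩, by rw [b, d]⟩, b⟩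
  have h4 := @sq_sum_le_card_mul_sum_sq ℕ ℝ _ _ _ _ I (fun v => (((T K M).filter (fun p => V P p = v)).card : ℝ))
  rw [h1, h2]
  push_cast
  exact h4

theorem E_le (P K M : ℕ) :
    (E P K M).card ≤ ∑ a ∈ A K, ∑ a' ∈ A K, (quad M (5 * ((P : ℤ) * a') ^ 2 - 5 * ((P : ℤ) * a) ^ 2)).card := by
  classical
  have h3 : (E P K M).card = ∑ v ∈ A K ×ˢ A K, ((E P K M).filter (fun p => (p.1.1, p.2.1) = v)).card :=
    Finset.card_eq_sum_card_fiberwise (fun p hp => by
      unfold E T at hp
      simp only [coe_filter, mem_product, Set.mem_ofPred_eq] at hp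
      rw [mem_coe, mem_product]
      exact ⟨hp.1.1.1, hp.1.2.1⟩)
  rw [h3, Finset.sum_product]
  apply Finset.sum_le_sum
  intro a _
  apply Finset.sum_le_sum
  intro a' _
  refine Finset.card_le_card_of_injOn (fun p => (p.1.2, p.2.2)) ?_ ?_
  · intro p hp
    rw [mem_coe, mem_filter] at hp
    obtain ⟨hp, he⟩ := hp
    unfold E T So Se V at hp
    simp only [mem_filter, mem_product, mem_Icc] at hp
    simp only [Prod.mk.injEq] at he
    obtain ⟨he1, he2⟩ := he
    rw [he1, he2] at hp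
    unfold quad
    simp only [coe_filter, mem_product, mem_Icc, Set.mem_ofPred_eq]
    refine ⟨by tauto, ?_⟩
    have h5 : (5 * ((P : ℤ) * a) ^ 2 + (p.1.2.1 : ℤ) ^ 2 + (p.1.2.2 : ℤ) ^ 2) =
        5 * ((P : ℤ) * a') ^ 2 + (p.2.2.1 : ℤ) ^ 2 + (p.2.2.2 : ℤ) ^ 2 := by exact_mod_cast hp.2
    linarith
  · intro p hp p' hp' he
    rw [mem_coe, mem_filter] at hp hp'
    have e1 := hp.2
    have e2 := hp'.2
    simp only [Prod.mk.injEq] at e1 e2 he
    obtain ⟨e1a, e1b⟩ := e1
    obtain ⟨e2a, e2b⟩ := e2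
    apply Prod.ext
    · apply Prod.ext
      · rw [e1a, e2a]
      · exact he.1
    · apply Prod.ext
      · rw [e1b, e2b]
      · exact he.2

theorem div_sum_le (M : ℕ) (h : ℤ) (hh : h ≠ 0) :
    ∑ g ∈ (Icc 1 (2 * M)).filter (fun g : ℕ => (g : ℤ) ∣ h), (1 : ℝ) / g ≤ S h.natAbs := by
  unfold S
  apply Finset.sum_le_sum_of_subset_of_nonneg
  · intro g hg
    rw [mem_filter] at hg
    rw [Nat.mem_divisors]
    exact ⟨Int.natCast_dvd.1 hg.2, Int.natAbs_ne_zero.2 hh⟩
  · intro g _ _
    positivity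

theorem off_diag (j a a' M : ℕ) (ha : 1 ≤ a) (haa : a < a') :
    ∑ g ∈ (Icc 1 (2 * M)).filter (fun g : ℕ => (g : ℤ) ∣ 5 * (((3 ^ j : ℕ) : ℤ) * a') ^ 2 - 5 * (((3 ^ j : ℕ) : ℤ) * a) ^ 2), (1 : ℝ) / g
      ≤ 2 * (S (a' - a) ^ 2 + S (a + a') ^ 2) := by
  obtain ⟨k, rfl⟩ : ∃ k, a' = a + k := ⟨a' - a, by omega⟩
  have hk : 0 < k := by omega
  have e : (5 * (((3 ^ j : ℕ) : ℤ) * ((a + k : ℕ) : ℤ)) ^ 2 - 5 * (((3 ^ j : ℕ) : ℤ) * a) ^ 2 : ℤ) =
      ((5 * 3 ^ (2 * j) * (k * (a + (a + k))) : ℕ) : ℤ) := by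
    push_cast
    ring
  rw [e]
  have hne : ((5 * 3 ^ (2 * j) * (k * (a + (a + k))) : ℕ) : ℤ) ≠ 0 := by
    have : 0 < 5 * 3 ^ (2 * j) * (k * (a + (a + k))) := by positivity
    exact_mod_cast this.ne'
  refine (div_sum_le M _ hne).trans ?_
  rw [Int.natAbs_natCast, Nat.add_sub_cancel_left]
  have h1 := S_mul (5 * 3 ^ (2 * j)) (k * (a + (a + k)))
  have h2 := S_mul 5 (3 ^ (2 * j))
  have h3 := S_mul k (a + (a + k))
  have h4 := S_five
  have h5 := S_three_pow (2 * j)
  have n1 := S_nonneg 5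
  have n2 := S_nonneg (3 ^ (2 * j))
  have n3 := S_nonneg k
  have n4 := S_nonneg (a + (a + k))
  have n5 := S_nonneg (5 * 3 ^ (2 * j))
  have n6 := S_nonneg (k * (a + (a + k)))
  have h6 : S (5 * 3 ^ (2 * j)) ≤ 4 := by nlinarith
  calc S (5 * 3 ^ (2 * j) * (k * (a + (a + k)))) ≤ S (5 * 3 ^ (2 * j)) * S (k * (a + (a + k))) := h1
    _ ≤ 4 * (S k * S (a + (a + k))) := by gcongr
    _ ≤ 2 * (S k ^ 2 + S (a + (a + k)) ^ 2) := by nlinarith [sq_nonneg (S k - S (a + (a + k)))]

/-- the bound for the number of coincidences -/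
theorem E_bound : ∃ C : ℝ, 0 < C ∧ ∀ j K M : ℕ, 1 ≤ K → 1 ≤ M →
    ((E (3 ^ j) K M).card : ℝ) ≤ 16 * M ^ 2 * ((K + 1) * (1 + Real.log (2 * M) + C * K)) := by
  classical
  obtain ⟨C, hC, hS⟩ := S_sq_sum
  refine ⟨20 * C, by positivity, fun j K M hK hM => ?_⟩
  set D : ℕ → ℕ → ℝ := fun a a' => ∑ g ∈ (Icc 1 (2 * M)).filter
    (fun g : ℕ => (g : ℤ) ∣ 5 * (((3 ^ j : ℕ) : ℤ) * a') ^ 2 - 5 * (((3 ^ j : ℕ) : ℤ) * a) ^ 2), (1 : ℝ) / g with hD
  have hDsymm : ∀ a a', D a a' = D a' a := by
    intro a a'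
    simp only [hD]
    apply Finset.sum_congr _ fun _ _ => rfl
    ext g
    simp only [mem_filter]
    constructor
    · rintro ⟨h1, h2⟩
      refine ⟨h1, ?_⟩
      rw [← neg_sub]
      exact h2.neg_right
    · rintro ⟨h1, h2⟩
      refine ⟨h1, ?_⟩
      rw [← neg_sub]
      exact h2.neg_right
  have h1 : ((E (3 ^ j) K M).card : ℝ) ≤ ∑ a ∈ A K, ∑ a' ∈ A K, 16 * M ^ 2 * D a a' := by
    have h2 : ((E (3 ^ j) K M).card : ℝ) ≤ ∑ a ∈ A K, ∑ a' ∈ A K,
        ((quad M (5 * (((3 ^ j : ℕ) : ℤ) * a') ^ 2 - 5 * (((3 ^ j : ℕ) : ℤ) * a) ^ 2)).card : ℝ) := by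
      exact_mod_cast E_le (3 ^ j) K M
    refine h2.trans ?_
    exact Finset.sum_le_sum fun a _ => Finset.sum_le_sum fun a' _ => quad_card M _
  refine h1.trans ?_
  -- the sum over `a'` for fixed `a`
  have hrow : ∀ a ∈ A K, ∑ a' ∈ A K, D a a' ≤ 1 + Real.log (2 * M) + 20 * C * K := by
    intro a ha
    have ha' : K ≤ a ∧ a ≤ 2 * K := by
      unfold A at ha
      rw [mem_filter, mem_Icc] at ha
      exact ha.1
    have hdiag : D a a ≤ 1 + Real.log (2 * M) := by
      simp only [hD]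
      calc _ ≤ ∑ g ∈ Icc 1 (2 * M), (1 : ℝ) / g := by
            apply Finset.sum_le_sum_of_subset_of_nonneg (Finset.filter_subset _ _)
            intro g _ _
            positivity
        _ ≤ 1 + Real.log ((2 * M : ℕ) : ℝ) := harm _
        _ = _ := by push_cast; rfl
    have hsub : A K ⊆ {a} ∪ ((Icc K (2 * K)).filter (fun a' => a < a') ∪ (Icc K (2 * K)).filter (fun a' => a' < a)) := by
      intro a' h'
      unfold A at h'
      rw [mem_filter] at h'
      simp only [mem_union, mem_singleton, mem_filter]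
      rcases lt_trichotomy a a' with h3 | h3 | h3
      · exact Or.inr (Or.inl ⟨h'.1, h3⟩)
      · exact Or.inl h3.symm
      · exact Or.inr (Or.inr ⟨h'.1, h3⟩)
    have hDnn : ∀ a', 0 ≤ D a a' := fun a' => Finset.sum_nonneg fun _ _ => by positivity
    have hgt : ∑ a' ∈ (Icc K (2 * K)).filter (fun a' => a < a'), D a a' ≤ 2 * (C * K + C * (4 * K)) := by
      calc ∑ a' ∈ (Icc K (2 * K)).filter (fun a' => a < a'), D a a'
          ≤ ∑ a' ∈ (Icc K (2 * K)).filter (fun a' => a < a'), 2 * (S (a' - a) ^ 2 + S (a + a') ^ 2) := by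
            apply Finset.sum_le_sum
            intro a' h'
            rw [mem_filter] at h'
            exact off_diag j a a' M (by omega) h'.2
        _ = 2 * (∑ a' ∈ (Icc K (2 * K)).filter (fun a' => a < a'), S (a' - a) ^ 2 +
            ∑ a' ∈ (Icc K (2 * K)).filter (fun a' => a < a'), S (a + a') ^ 2) := by
            rw [← Finset.mul_sum, Finset.sum_add_distrib]
        _ ≤ 2 * (C * K + C * (4 * K)) := by
            have q1 : ∑ a' ∈ (Icc K (2 * K)).filter (fun a' => a < a'), S (a' - a) ^ 2 ≤ C * K := by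
              refine le_trans ?_ (hS K)
              rw [← Finset.sum_image (s := (Icc K (2 * K)).filter (fun a' => a < a')) (g := fun a' => a' - a)
                (f := fun k => S k ^ 2)]
              · apply Finset.sum_le_sum_of_subset_of_nonneg
                · intro k hk
                  rw [mem_image] at hk
                  obtain ⟨a', h', rfl⟩ := hk
                  rw [mem_filter, mem_Icc] at h'
                  rw [mem_Icc]
                  omega
                · intro _ _ _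
                  positivity
              · intro x hx y hy hxy
                rw [mem_coe, mem_filter] at hx hy
                simp only at hxy
                omega
            have q2 : ∑ a' ∈ (Icc K (2 * K)).filter (fun a' => a < a'), S (a + a') ^ 2 ≤ C * (4 * K) := by
              have hS4 := hS (4 * K)
              push_cast at hS4
              refine le_trans ?_ hS4
              rw [← Finset.sum_image (s := (Icc K (2 * K)).filter (fun a' => a < a')) (g := fun a' => a + a')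
                (f := fun k => S k ^ 2)]
              · apply Finset.sum_le_sum_of_subset_of_nonneg
                · intro k hk
                  rw [mem_image] at hk
                  obtain ⟨a', h', rfl⟩ := hk
                  rw [mem_filter, mem_Icc] at h'
                  rw [mem_Icc]
                  omega
                · intro _ _ _
                  positivity
              · intro x hx y hy hxy
                simp only at hxy
                omega
            linarith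
    have hlt : ∑ a' ∈ (Icc K (2 * K)).filter (fun a' => a' < a), D a a' ≤ 2 * (C * K + C * (4 * K)) := by
      calc ∑ a' ∈ (Icc K (2 * K)).filter (fun a' => a' < a), D a a'
          ≤ ∑ a' ∈ (Icc K (2 * K)).filter (fun a' => a' < a), 2 * (S (a - a') ^ 2 + S (a' + a) ^ 2) := by
            apply Finset.sum_le_sum
            intro a' h'
            rw [mem_filter, mem_Icc] at h'
            rw [hDsymm]
            exact off_diag j a' a M (by omega) h'.2
        _ = 2 * (∑ a' ∈ (Icc K (2 * K)).filter (fun a' => a' < a), S (a - a') ^ 2 +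
            ∑ a' ∈ (Icc K (2 * K)).filter (fun a' => a' < a), S (a' + a) ^ 2) := by
            rw [← Finset.mul_sum, Finset.sum_add_distrib]
        _ ≤ 2 * (C * K + C * (4 * K)) := by
            have q1 : ∑ a' ∈ (Icc K (2 * K)).filter (fun a' => a' < a), S (a - a') ^ 2 ≤ C * K := by
              refine le_trans ?_ (hS K)
              rw [← Finset.sum_image (s := (Icc K (2 * K)).filter (fun a' => a' < a)) (g := fun a' => a - a')
                (f := fun k => S k ^ 2)]
              · apply Finset.sum_le_sum_of_subset_of_nonneg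
                · intro k hk
                  rw [mem_image] at hk
                  obtain ⟨a', h', rfl⟩ := hk
                  rw [mem_filter, mem_Icc] at h'
                  rw [mem_Icc]
                  omega
                · intro _ _ _
                  positivity
              · intro x hx y hy hxy
                rw [mem_coe, mem_filter] at hx hy
                simp only at hxy
                omega
            have q2 : ∑ a' ∈ (Icc K (2 * K)).filter (fun a' => a' < a), S (a' + a) ^ 2 ≤ C * (4 * K) := by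
              have hS4 := hS (4 * K)
              push_cast at hS4
              refine le_trans ?_ hS4
              rw [← Finset.sum_image (s := (Icc K (2 * K)).filter (fun a' => a' < a)) (g := fun a' => a' + a)
                (f := fun k => S k ^ 2)]
              · apply Finset.sum_le_sum_of_subset_of_nonneg
                · intro k hk
                  rw [mem_image] at hk
                  obtain ⟨a', h', rfl⟩ := hk
                  rw [mem_filter, mem_Icc] at h'
                  rw [mem_Icc]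
                  omega
                · intro _ _ _
                  positivity
              · intro x hx y hy hxy
                simp only at hxy
                omega
            linarith
    have hunion : ∀ (s t : Finset ℕ), ∑ a' ∈ s ∪ t, D a a' ≤ ∑ a' ∈ s, D a a' + ∑ a' ∈ t, D a a' := by
      intro s t
      have := Finset.sum_union_inter (s₁ := s) (s₂ := t) (f := fun a' => D a a')
      have h0 : 0 ≤ ∑ a' ∈ s ∩ t, D a a' := Finset.sum_nonneg fun a' _ => hDnn a'
      linarith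
    calc ∑ a' ∈ A K, D a a' ≤ ∑ a' ∈ {a} ∪ ((Icc K (2 * K)).filter (fun a' => a < a') ∪
          (Icc K (2 * K)).filter (fun a' => a' < a)), D a a' :=
          Finset.sum_le_sum_of_subset_of_nonneg hsub fun a' _ _ => hDnn a'
      _ ≤ D a a + (2 * (C * K + C * (4 * K)) + 2 * (C * K + C * (4 * K))) := by
          refine (hunion _ _).trans ?_
          rw [sum_singleton]
          have := hunion ((Icc K (2 * K)).filter (fun a' => a < a')) ((Icc K (2 * K)).filter (fun a' => a' < a))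
          linarith
      _ ≤ 1 + Real.log (2 * M) + 20 * C * K := by linarith
  have hM1 : (1 : ℝ) ≤ M := by exact_mod_cast hM
  have hlog : 0 ≤ Real.log (2 * M) := Real.log_nonneg (by linarith)
  have hKr : (0 : ℝ) ≤ K := Nat.cast_nonneg K
  calc ∑ a ∈ A K, ∑ a' ∈ A K, 16 * (M : ℝ) ^ 2 * D a a' = 16 * M ^ 2 * ∑ a ∈ A K, ∑ a' ∈ A K, D a a' := by
        simp only [Finset.mul_sum]
    _ ≤ 16 * M ^ 2 * ∑ a ∈ A K, (1 + Real.log (2 * M) + 20 * C * K) := by
        gcongr with a ha
        exact hrow a ha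
    _ = 16 * M ^ 2 * (((A K).card : ℝ) * (1 + Real.log (2 * M) + 20 * C * K)) := by
        rw [sum_const, nsmul_eq_mul]
    _ ≤ _ := by
        have h5 : ((A K).card : ℝ) ≤ K + 1 := by exact_mod_cast card_A_le K
        gcongr

theorem card_T (K M : ℕ) (hK : 1 ≤ K) (hM : 2 ≤ M) : (K : ℝ) * M ^ 2 / 12 ≤ ((T K M).card : ℝ) := by
  unfold T
  rw [Finset.card_product, Finset.card_product]
  push_cast
  have h1 := card_A K hK
  have h2 := card_So M
  have h3 := card_Se M hM
  have hK0 : (0 : ℝ) ≤ K := Nat.cast_nonneg K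
  have hM0 : (0 : ℝ) ≤ M := Nat.cast_nonneg M
  calc (K : ℝ) * M ^ 2 / 12 = K / 2 * (M / 2 * (M / 3)) := by ring
    _ ≤ ((A K).card : ℝ) * (((So M).card : ℝ) * ((Se M).card : ℝ)) := by gcongr

/-- the number of values -/
theorem image_card : ∃ C : ℝ, 0 < C ∧ ∀ j K M : ℕ, 1 ≤ K → 2 ≤ M →
    (M : ℝ) ^ 2 * K / (4608 * (1 + Real.log (2 * M) + C * K)) ≤ (((T K M).image (V (3 ^ j))).card : ℝ) := by
  obtain ⟨C, hC, hE⟩ := E_bound
  refine ⟨C, hC, fun j K M hK hM => ?_⟩
  have hKr : (1 : ℝ) ≤ K := by exact_mod_cast hK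
  have hMr : (2 : ℝ) ≤ M := by exact_mod_cast hM
  have hlog : 0 ≤ Real.log (2 * M) := Real.log_nonneg (by linarith)
  set W : ℝ := 1 + Real.log (2 * M) + C * K with hW
  have hW0 : 0 < W := by positivity
  have h1 := cauchy (3 ^ j) K M
  have h2 := hE j K M hK (by omega)
  have h3 := card_T K M hK hM
  set I : ℝ := (((T K M).image (V (3 ^ j))).card : ℝ) with hI
  have hI0 : 0 ≤ I := Nat.cast_nonneg _
  have h4 : ((K : ℝ) * M ^ 2 / 12) ^ 2 ≤ I * (32 * M ^ 2 * K * W) := by
    calc ((K : ℝ) * M ^ 2 / 12) ^ 2 ≤ ((T K M).card : ℝ) ^ 2 := by gcongr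
      _ ≤ I * ((E (3 ^ j) K M).card : ℝ) := h1
      _ ≤ I * (16 * M ^ 2 * ((K + 1) * W)) := by gcongr
      _ ≤ I * (16 * M ^ 2 * ((2 * K) * W)) := by
          gcongr
          linarith
      _ = _ := by ring
  rw [div_le_iff₀ (by positivity)]
  have h5 : (K : ℝ) * M ^ 2 * ((M : ℝ) ^ 2 * K) ≤ (K : ℝ) * M ^ 2 * (I * (4608 * W)) := by nlinarith
  exact le_of_mul_le_mul_left h5 (by positivity)

/-- every value gives a number with a good quadruple -/
theorem value_good (j K M v : ℕ) (hK : 1 ≤ K) (hM : M = 3 ^ j * K) (hv : v ∈ (T K M).image (V (3 ^ j))) :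
    ∃ n : ℕ, v = 2 * n ∧ Odd n ∧ 1 ≤ n ∧ n ≤ 11 * M ^ 2 ∧ ∃ x y z w : ℕ, n = x ^ 2 + y ^ 2 + z ^ 2 + w ^ 2 ∧
      ∀ q : ℕ, q.Prime → q ∣ 2 ^ (x + y) + 2 ^ (z + w) + 1 → 3 ^ (j + 1) < q := by
  rw [mem_image] at hv
  obtain ⟨⟨a, s, t⟩, hp, rfl⟩ := hv
  unfold T A So Se at hp
  simp only [mem_product, mem_filter, mem_Icc] at hp
  obtain ⟨⟨⟨ha1, ha2⟩, ha3⟩, ⟨⟨hs1, hs2⟩, hs3⟩, ⟨ht1, ht2⟩, ht3⟩ := hp
  set b := 3 ^ j * a with hb
  have hbodd : Odd b := (Odd.pow (by decide)).mul ha3
  have hMb : M ≤ b := by rw [hM, hb]; exact Nat.mul_le_mul_left _ ha1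
  have hbM : b ≤ 2 * M := by
    rw [hM, hb]
    calc 3 ^ j * a ≤ 3 ^ j * (2 * K) := Nat.mul_le_mul_left _ ha2
      _ = 2 * (3 ^ j * K) := by ring
  obtain ⟨b', hb'⟩ := hbodd
  obtain ⟨s', hs'⟩ := hs3
  obtain ⟨t', ht'⟩ := ht3
  have ht'' : t = 2 * t' := by omega
  -- x = (b+s)/2, y = (b-s)/2, z = b + t', w = b - t'
  obtain ⟨x, hx⟩ : ∃ x, x = b' + s' + 1 := ⟨_, rfl⟩
  obtain ⟨y, hy⟩ : ∃ y, y + s' = b' := ⟨b' - s', by omega⟩
  obtain ⟨w, hw⟩ : ∃ w, w + t' = b := ⟨b - t', by omega⟩
  have hsum1 : x + y = b := by omega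
  have hsum2 : (b + t') + w = 2 * b := by omega
  have hV : V (3 ^ j) (a, s, t) = 2 * (x ^ 2 + y ^ 2 + (b + t') ^ 2 + w ^ 2) := by
    unfold V
    simp only
    rw [← hb]
    have e1 : (b : ℤ) = 2 * b' + 1 := by exact_mod_cast hb'
    have e2 : (s : ℤ) = 2 * s' + 1 := by exact_mod_cast hs'
    have e3 : (t : ℤ) = 2 * t' := by exact_mod_cast ht''
    have e4 : (x : ℤ) = b' + s' + 1 := by exact_mod_cast hx
    have e5 : (y : ℤ) = b' - s' := by
      have : (y : ℤ) + s' = b' := by exact_mod_cast hy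
      linarith
    have e6 : (w : ℤ) = b - t' := by
      have : (w : ℤ) + t' = b := by exact_mod_cast hw
      linarith
    zify
    rw [e3, e2, e4, e5, e6]
    rw [e1]
    ring
  refine ⟨x ^ 2 + y ^ 2 + (b + t') ^ 2 + w ^ 2, hV, ?_, ?_, ?_, x, y, b + t', w, rfl, ?_⟩
  · -- parity
    have e1 : Odd (x + y) := by rw [hsum1]; exact ⟨b', hb'⟩
    have e2 : Even ((b + t') + w) := by rw [hsum2]; exact even_two_mul b
    have e3 : Odd (x ^ 2 + y ^ 2) := by
      have : Odd ((x + y) ^ 2) := e1.pow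
      have h4 : (x + y) ^ 2 = (x ^ 2 + y ^ 2) + 2 * (x * y) := by ring
      rw [h4] at this
      exact (Nat.odd_add.1 this).2 (even_two_mul _)
    have e4 : Even ((b + t') ^ 2 + w ^ 2) := by
      have : Even (((b + t') + w) ^ 2) := e2.pow_of_ne_zero (by norm_num)
      have h4 : ((b + t') + w) ^ 2 = ((b + t') ^ 2 + w ^ 2) + 2 * ((b + t') * w) := by ring
      rw [h4] at this
      exact (Nat.even_add.1 this).2 (even_two_mul _)
    rw [add_assoc]
    exact e3.add_even e4
  · have : 1 ≤ b := by omega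
    nlinarith [Nat.zero_le (x ^ 2), Nat.zero_le (y ^ 2), Nat.zero_le (w ^ 2), Nat.zero_le t']
  · have h1 : 2 * (x ^ 2 + y ^ 2 + (b + t') ^ 2 + w ^ 2) ≤ 2 * (11 * M ^ 2) := by
      rw [← hV]
      unfold V
      simp only
      rw [← hb]
      have h2 : b ^ 2 ≤ (2 * M) ^ 2 := Nat.pow_le_pow_left hbM 2
      have h3 : s ^ 2 ≤ M ^ 2 := Nat.pow_le_pow_left hs2 2
      have h4 : t ^ 2 ≤ M ^ 2 := Nat.pow_le_pow_left ht2 2
      nlinarith
    omega
  · intro q hq hqd
    rw [hsum1, hsum2] at hqd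
    exact prime_factor_lt b j q ⟨b', hb'⟩ (Dvd.intro a rfl) hq hqd

/-- the odd numbers up to `X` with a quadruple for which all prime factors exceed `B` -/
noncomputable def good (X : ℕ) (B : ℝ) : Finset ℕ := by
  classical
  exact (Icc 1 X).filter (fun n => Odd n ∧ ∃ x y z w : ℕ, n = x ^ 2 + y ^ 2 + z ^ 2 + w ^ 2 ∧
    ∀ q : ℕ, q.Prime → q ∣ 2 ^ (x + y) + 2 ^ (z + w) + 1 → B < q)

theorem main : ∃ c : ℝ, 0 < c ∧ ∀ X : ℕ, ∀ B : ℝ, 1 ≤ B → B ≤ √X / 8 →
    c * X / (1 + B * Real.log X / √X) ≤ ((good X B).card : ℝ) := by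
  classical
  obtain ⟨C, hC, hI⟩ := image_card
  refine ⟨1 / (64 * 4608 * (C + 16)), by positivity, fun X B hB1 hB2 => ?_⟩
  have hX8 : 8 ≤ √(X : ℝ) := by linarith
  have hX64 : (64 : ℝ) ≤ X := by
    have h := Real.sq_sqrt (Nat.cast_nonneg X : (0 : ℝ) ≤ X)
    nlinarith
  set R : ℝ := √(X : ℝ) with hR
  have hRsq : R ^ 2 = X := Real.sq_sqrt (Nat.cast_nonneg X)
  have hlogX : 1 ≤ Real.log X := by
    rw [Real.le_log_iff_exp_le (by linarith)]
    have := Real.exp_one_lt_d9
    linarith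
  -- the power of three
  set b := ⌊B⌋₊ with hb
  have hb1 : 1 ≤ b := by rw [hb]; exact Nat.le_floor (by exact_mod_cast hB1)
  set j := Nat.log 3 b with hj
  set P : ℕ := 3 ^ j with hP
  have hPb : P ≤ b := Nat.pow_log_le_self 3 (by omega)
  have hPB : (P : ℝ) ≤ B := by
    have h1 : (b : ℝ) ≤ B := Nat.floor_le (by linarith)
    have h2 : (P : ℝ) ≤ b := by exact_mod_cast hPb
    linarith
  have hBP : B < ((3 ^ (j + 1) : ℕ) : ℝ) := by
    have h1 : b < 3 ^ (j + 1) := Nat.lt_pow_succ_log_self (by norm_num) b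
    have h2 : B < (b : ℝ) + 1 := Nat.lt_floor_add_one B
    have h3 : ((b + 1 : ℕ) : ℝ) ≤ ((3 ^ (j + 1) : ℕ) : ℝ) := by exact_mod_cast h1
    push_cast at h3 ⊢
    linarith
  have hP1 : 1 ≤ P := Nat.one_le_pow _ _ (by norm_num)
  have hPr : (1 : ℝ) ≤ P := by exact_mod_cast hP1
  have hPr0 : (0 : ℝ) < P := by linarith
  -- the length
  set κ : ℝ := R / (4 * P) with hκ
  have hκ2 : 2 ≤ κ := by
    rw [hκ, le_div_iff₀ (by positivity)]
    linarith
  set K := ⌊κ⌋₊ with hK
  have hKκ : (K : ℝ) ≤ κ := Nat.floor_le (by linarith)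
  have hκK : κ / 2 ≤ (K : ℝ) := by
    have := Nat.lt_floor_add_one κ
    linarith
  have hK2 : 2 ≤ K := by rw [hK]; exact Nat.le_floor (by exact_mod_cast hκ2)
  have hKr : (2 : ℝ) ≤ K := by exact_mod_cast hK2
  set M := P * K with hM
  have hMr : (M : ℝ) = P * K := by rw [hM]; push_cast; ring
  have hM2 : 2 ≤ M := by rw [hM]; nlinarith
  have hMle : (M : ℝ) ≤ R / 4 := by
    rw [hMr]
    calc (P : ℝ) * K ≤ P * κ := by gcongr
      _ = R / 4 := by rw [hκ]; field_simp
  have hMge : R / 8 ≤ (M : ℝ) := by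
    rw [hMr]
    calc R / 8 = P * (κ / 2) := by rw [hκ]; field_simp; ring
      _ ≤ P * K := by gcongr
  have hcard := hI j K M (by omega) hM2
  -- the values inject into the good numbers
  have himg : ((T K M).image (V (3 ^ j))).card ≤ (good X B).card := by
    refine Finset.card_le_card_of_injOn (fun v => v / 2) ?_ ?_
    · intro v hv
      obtain ⟨n, hvn, hodd, h1, h11, hq⟩ := value_good j K M v (by omega) hM hv
      have e : v / 2 = n := by omega
      rw [mem_coe]
      simp only [e]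
      unfold good
      rw [mem_filter, mem_Icc]
      have hnX : n ≤ X := by
        have h3 : (n : ℝ) ≤ 11 * (M : ℝ) ^ 2 := by exact_mod_cast h11
        have h4 : (M : ℝ) ^ 2 ≤ (R / 4) ^ 2 := by gcongr
        have h5 : (n : ℝ) ≤ X := by nlinarith
        exact_mod_cast h5
      refine ⟨⟨h1, hnX⟩, hodd, ?_⟩
      obtain ⟨x, y, z, w, hn, hqq⟩ := hq
      refine ⟨x, y, z, w, hn, fun q hq1 hq2 => ?_⟩
      have h6 : ((3 ^ (j + 1) : ℕ) : ℝ) < q := by exact_mod_cast hqq q hq1 hq2
      linarith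
    · intro v hv v' hv' he
      obtain ⟨n, hvn, -⟩ := value_good j K M v (by omega) hM hv
      obtain ⟨n', hvn', -⟩ := value_good j K M v' (by omega) hM hv'
      simp only at he
      omega
  have himg' : ((((T K M).image (V (3 ^ j))).card : ℕ) : ℝ) ≤ ((good X B).card : ℝ) := by exact_mod_cast himg
  refine le_trans ?_ (hcard.trans himg')
  have hlog2M : Real.log (2 * M) ≤ Real.log X := by
    apply Real.log_le_log (by linarith)
    nlinarith
  have hlog0 : 0 ≤ Real.log (2 * (M : ℝ)) := Real.log_nonneg (by nlinarith)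
  -- lower bound
  have hB0 : 0 < B := by linarith
  have hR0 : 0 < R := by linarith
  have hKB : R / (8 * B) ≤ K := by
    refine le_trans ?_ hκK
    rw [hκ]
    rw [div_div, div_le_div_iff₀ (by positivity) (by positivity)]
    nlinarith
  have hmain : (1 : ℝ) / ((C + 16) * (1 + B * Real.log X / R)) ≤ K / (1 + Real.log (2 * M) + C * K) := by
    rw [div_le_div_iff₀ (by positivity) (by positivity), one_mul]
    have e1 : 1 + Real.log (2 * M) ≤ 2 * Real.log X := by linarith
    have e2 : 2 * Real.log X ≤ K * (16 * (B * Real.log X / R)) := by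
      have e3 : R / (8 * B) * (16 * (B * Real.log X / R)) = 2 * Real.log X := by
        field_simp
        ring
      rw [← e3]
      gcongr
    have e4 : 0 ≤ (K : ℝ) * (C * (B * Real.log X / R)) := by positivity
    have e5 : 0 ≤ (K : ℝ) * 16 := by positivity
    nlinarith
  have hM64 : (X : ℝ) / 64 ≤ (M : ℝ) ^ 2 := by
    calc (X : ℝ) / 64 = (R / 8) ^ 2 := by rw [← hRsq]; ring
      _ ≤ (M : ℝ) ^ 2 := by gcongr
  calc 1 / (64 * 4608 * (C + 16)) * X / (1 + B * Real.log X / R)
      = (X / 64) / 4608 * (1 / ((C + 16) * (1 + B * Real.log X / R))) := by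
        have : (1 + B * Real.log X / R) ≠ 0 := by positivity
        field_simp
    _ ≤ (M : ℝ) ^ 2 / 4608 * (K / (1 + Real.log (2 * M) + C * K)) := by gcongr
    _ = (M : ℝ) ^ 2 * K / (4608 * (1 + Real.log (2 * M) + C * K)) := by
        rw [div_mul_div_comm]

end Pool.Agent.R154.FS
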