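import Mathlib

/-!
# Solutions of `s² + t² - s'² - t'² = h` in a box
-/

set_option autoImplicit false
open Finset

namespace Pool.Agent.R154.FS

/-- integers of `[-M, M]` in one residue class modulo `m` -/
theorem card_ap (U : Finset ℤ) (m M : ℕ) (hm : 0 < m) (hU : ∀ u ∈ U, -(M : ℤ) ≤ u ∧ u ≤ M)
    (hd : ∀ u ∈ U, ∀ u' ∈ U, (m : ℤ) ∣ u - u') : (U.card : ℝ) ≤ 2 * M / m + 1 := by
  rcases U.eq_empty_or_nonempty with h | hne
  · subst h
    simp only [card_empty, Nat.cast_zero]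
    positivity
  · set u0 := U.min' hne with hu0
    have hu0m : u0 ∈ U := U.min'_mem hne
    have hm' : (0 : ℤ) < m := by exact_mod_cast hm
    have hcard : U.card ≤ (range (2 * M / m + 1)).card := by
      refine Finset.card_le_card_of_injOn (fun u => ((u - u0) / m).toNat) ?_ ?_
      · intro u hu
        have hu' : u ∈ U := hu
        have h1 := (hU u hu').2
        have h2 := (hU u0 hu0m).1
        have h3 : u0 ≤ u := U.min'_le u hu'
        have h4 : (u - u0) / m ≤ (2 * M : ℤ) / m := Int.ediv_le_ediv hm' (by linarith)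
        have h5 : 0 ≤ (u - u0) / m := Int.ediv_nonneg (by linarith) hm'.le
        simp only [coe_range, Set.mem_Iio]
        have h6 : ((2 * M / m : ℕ) : ℤ) = (2 * M : ℤ) / m := by push_cast; rfl
        omega
      · intro u hu u' hu' he
        have hu1 : u ∈ U := hu
        have hu2 : u' ∈ U := hu'
        obtain ⟨k, hk⟩ := hd u hu1 u0 hu0m
        obtain ⟨k', hk'⟩ := hd u' hu2 u0 hu0m
        simp only at he
        rw [hk, hk', Int.mul_ediv_cancel_left _ hm'.ne', Int.mul_ediv_cancel_left _ hm'.ne'] at he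
        have h3 : u0 ≤ u := U.min'_le u hu1
        have h3' : u0 ≤ u' := U.min'_le u' hu2
        have hk0 : 0 ≤ k := by
          by_contra hc
          push Not at hc
          nlinarith
        have hk0' : 0 ≤ k' := by
          by_contra hc
          push Not at hc
          nlinarith
        have : k = k' := by omega
        rw [this] at hk
        linarith
    rw [card_range] at hcard
    have h1 : (U.card : ℝ) ≤ ((2 * M / m + 1 : ℕ) : ℝ) := by exact_mod_cast hcard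
    have h2 : ((2 * M / m : ℕ) : ℝ) ≤ (2 * M : ℝ) / m := by
      have := @Nat.cast_div_le ℝ _ _ _ (2 * M) m
      push_cast at this
      exact this
    push_cast at h1 h2 ⊢
    linarith

/-- the solutions in the box -/
def quad (M : ℕ) (h : ℤ) : Finset ((ℕ × ℕ) × (ℕ × ℕ)) :=
  ((Icc 1 M ×ˢ Icc 1 M) ×ˢ (Icc 1 M ×ˢ Icc 1 M)).filter
    (fun p => (p.1.1 : ℤ) ^ 2 + (p.1.2 : ℤ) ^ 2 - (p.2.1 : ℤ) ^ 2 - (p.2.2 : ℤ) ^ 2 = h)

/-- the solutions with prescribed sums -/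
def fib (M : ℕ) (h : ℤ) (v z : ℕ) : Finset ((ℕ × ℕ) × (ℕ × ℕ)) :=
  (quad M h).filter (fun p => p.1.1 + p.2.1 = v ∧ p.1.2 + p.2.2 = z)

theorem mem_fib {M : ℕ} {h : ℤ} {v z : ℕ} {p : (ℕ × ℕ) × (ℕ × ℕ)} : p ∈ fib M h v z ↔
    (((1 ≤ p.1.1 ∧ p.1.1 ≤ M) ∧ (1 ≤ p.1.2 ∧ p.1.2 ≤ M)) ∧ ((1 ≤ p.2.1 ∧ p.2.1 ≤ M) ∧ (1 ≤ p.2.2 ∧ p.2.2 ≤ M))) ∧
    ((p.1.1 : ℤ) ^ 2 + (p.1.2 : ℤ) ^ 2 - (p.2.1 : ℤ) ^ 2 - (p.2.2 : ℤ) ^ 2 = h) ∧
    (p.1.1 + p.2.1 = v ∧ p.1.2 + p.2.2 = z) := by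
  unfold fib quad
  simp only [mem_filter, mem_product, mem_Icc]
  tauto

theorem gcd_dvd_of_mem {M : ℕ} {h : ℤ} {v z : ℕ} {p : (ℕ × ℕ) × (ℕ × ℕ)} (hp : p ∈ fib M h v z) :
    ((Nat.gcd v z : ℕ) : ℤ) ∣ h := by
  rw [mem_fib] at hp
  obtain ⟨-, h1, h2, h3⟩ := hp
  have hv : ((Nat.gcd v z : ℕ) : ℤ) ∣ v := by exact_mod_cast Nat.gcd_dvd_left v z
  have hz : ((Nat.gcd v z : ℕ) : ℤ) ∣ z := by exact_mod_cast Nat.gcd_dvd_right v z
  have e : h = (v : ℤ) * ((p.1.1 : ℤ) - p.2.1) + (z : ℤ) * ((p.1.2 : ℤ) - p.2.2) := by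
    rw [← h1, ← h2, ← h3]
    push_cast
    ring
  rw [e]
  exact dvd_add (hv.mul_right _) (hz.mul_right _)

/-- the fibre is small: by the first difference -/
theorem fib_card_left (M : ℕ) (h : ℤ) (v z : ℕ) (hv : 1 ≤ v) (hz : 1 ≤ z) (hz2 : z ≤ 2 * M) :
    ((fib M h v z).card : ℝ) ≤ 4 * M * (Nat.gcd v z : ℕ) / z := by
  classical
  set g := Nat.gcd v z with hg
  have hg0 : 0 < g := Nat.gcd_pos_of_pos_left _ (by omega)
  obtain ⟨m, hm⟩ : g ∣ z := Nat.gcd_dvd_right v z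
  obtain ⟨l, hl⟩ : g ∣ v := Nat.gcd_dvd_left v z
  have hm0 : 0 < m := by
    rcases Nat.eq_zero_or_pos m with h0 | h0
    · rw [h0] at hm; omega
    · exact h0
  have hcop : Nat.Coprime l m := by
    have : g * Nat.gcd l m = g * 1 := by
      rw [← Nat.gcd_mul_left, ← hl, ← hm, mul_one]
    exact Nat.eq_of_mul_eq_mul_left hg0 this
  set φ : (ℕ × ℕ) × (ℕ × ℕ) → ℤ := fun p => (p.1.1 : ℤ) - p.2.1 with hφ
  have hinj : Set.InjOn φ (fib M h v z : Set ((ℕ × ℕ) × (ℕ × ℕ))) := by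
    intro p hp p' hp' he
    rw [mem_coe, mem_fib] at hp hp'
    obtain ⟨-, h1, h2, h3⟩ := hp
    obtain ⟨-, h1', h2', h3'⟩ := hp'
    simp only [hφ] at he
    have e1 : p.1.1 = p'.1.1 := by omega
    have e2 : p.2.1 = p'.2.1 := by omega
    have e3 : (z : ℤ) * ((p.1.2 : ℤ) - p.2.2) = (z : ℤ) * ((p'.1.2 : ℤ) - p'.2.2) := by
      have a1 : (z : ℤ) * ((p.1.2 : ℤ) - p.2.2) = (p.1.2 : ℤ) ^ 2 - (p.2.2 : ℤ) ^ 2 := by
        rw [← h3]; push_cast; ring
      have a2 : (z : ℤ) * ((p'.1.2 : ℤ) - p'.2.2) = (p'.1.2 : ℤ) ^ 2 - (p'.2.2 : ℤ) ^ 2 := by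
        rw [← h3']; push_cast; ring
      rw [a1, a2]
      rw [e1, e2] at h1
      linarith
    have hz' : (z : ℤ) ≠ 0 := by
      have : (1 : ℤ) ≤ z := by exact_mod_cast hz
      omega
    have e4 := mul_left_cancel₀ hz' e3
    have e5 : p.1.2 = p'.1.2 := by omega
    have e6 : p.2.2 = p'.2.2 := by omega
    ext <;> assumption
  have hcard : (fib M h v z).card = ((fib M h v z).image φ).card := (Finset.card_image_of_injOn hinj).symm
  have hap := card_ap ((fib M h v z).image φ) m M hm0 (by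
    intro u hu
    rw [mem_image] at hu
    obtain ⟨p, hp, rfl⟩ := hu
    rw [mem_fib] at hp
    simp only [hφ]
    omega) (by
    intro u hu u' hu'
    rw [mem_image] at hu hu'
    obtain ⟨p, hp, rfl⟩ := hu
    obtain ⟨p', hp', rfl⟩ := hu'
    rw [mem_fib] at hp hp'
    obtain ⟨-, h1, h2, h3⟩ := hp
    obtain ⟨-, h1', h2', h3'⟩ := hp'
    simp only [hφ]
    have a1 : (v : ℤ) * ((p.1.1 : ℤ) - p.2.1) + (z : ℤ) * ((p.1.2 : ℤ) - p.2.2) = h := by
      rw [← h1, ← h2, ← h3]; push_cast; ring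
    have a2 : (v : ℤ) * ((p'.1.1 : ℤ) - p'.2.1) + (z : ℤ) * ((p'.1.2 : ℤ) - p'.2.2) = h := by
      rw [← h1', ← h2', ← h3']; push_cast; ring
    set U := ((p.1.1 : ℤ) - p.2.1) - ((p'.1.1 : ℤ) - p'.2.1) with hU
    have a3 : (v : ℤ) * U = (z : ℤ) * (((p'.1.2 : ℤ) - p'.2.2) - ((p.1.2 : ℤ) - p.2.2)) := by
      rw [hU]; linarith
    rw [hl, hm] at a3
    push_cast at a3
    have hg' : (g : ℤ) ≠ 0 := by exact_mod_cast hg0.ne'
    have a4 : (l : ℤ) * U = (m : ℤ) * (((p'.1.2 : ℤ) - p'.2.2) - ((p.1.2 : ℤ) - p.2.2)) := by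
      apply mul_left_cancel₀ hg'
      linarith
    have a5 : (m : ℤ) ∣ (l : ℤ) * U := ⟨_, a4⟩
    have hc : IsCoprime (m : ℤ) (l : ℤ) := (Nat.isCoprime_iff_coprime.2 hcop).symm
    exact hc.dvd_of_dvd_mul_left a5)
  rw [hcard]
  refine hap.trans ?_
  have hzr : (z : ℝ) = g * m := by rw [hm]; push_cast; ring
  have hmr : (0 : ℝ) < m := by exact_mod_cast hm0
  have hgr : (0 : ℝ) < g := by exact_mod_cast hg0
  rw [hzr]
  have e1 : 4 * (M : ℝ) * g / (g * m) = 4 * M / m := by field_simp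
  rw [e1]
  have hmM : (m : ℝ) ≤ 2 * M := by
    have : m ≤ z := by rw [hm]; exact Nat.le_mul_of_pos_left m hg0
    have : m ≤ 2 * M := this.trans hz2
    exact_mod_cast this
  have e2 : (1 : ℝ) ≤ 2 * M / m := by rw [le_div_iff₀ hmr]; linarith
  have e3 : 4 * (M : ℝ) / m = 2 * M / m + 2 * M / m := by ring
  linarith

theorem fib_swap (M : ℕ) (h : ℤ) (v z : ℕ) : (fib M h v z).card = (fib M h z v).card := by
  apply Finset.card_bij (fun p _ => ((p.1.2, p.1.1), (p.2.2, p.2.1)))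
  · intro p hp
    rw [mem_fib] at hp ⊢
    obtain ⟨h0, h1, h2, h3⟩ := hp
    refine ⟨?_, ?_, ?_, ?_⟩
    · simp only; tauto
    · simp only; linarith
    · simp only; exact h3
    · simp only; exact h2
  · intro p hp p' hp' he
    simp only [Prod.mk.injEq] at he
    obtain ⟨⟨a, b⟩, c, d⟩ := he
    ext <;> assumption
  · intro p hp
    rw [mem_fib] at hp
    obtain ⟨h0, h1, h2, h3⟩ := hp
    refine ⟨((p.1.2, p.1.1), (p.2.2, p.2.1)), ?_, rfl⟩
    rw [mem_fib]
    refine ⟨?_, ?_, ?_, ?_⟩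
    · simp only; tauto
    · simp only; linarith
    · simp only; exact h3
    · simp only; exact h2

theorem fib_card (M : ℕ) (h : ℤ) (v z : ℕ) (hv : 1 ≤ v) (hv2 : v ≤ 2 * M) (hz : 1 ≤ z) (hz2 : z ≤ 2 * M) :
    ((fib M h v z).card : ℝ) ≤ 4 * M * (Nat.gcd v z : ℕ) / (max v z : ℕ) := by
  rcases le_total v z with h1 | h1
  · rw [max_eq_right h1]
    exact fib_card_left M h v z hv hz hz2
  · rw [max_eq_left h1, fib_swap, Nat.gcd_comm]
    exact fib_card_left M h z v hz hv hv2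

theorem sum_max (Y g : ℕ) (hg : 0 < g) :
    ∑ v ∈ (Icc 1 Y).filter (fun v => g ∣ v), ∑ z ∈ (Icc 1 Y).filter (fun z => g ∣ z), (g : ℝ) / (max v z : ℕ)
      ≤ 2 * (Y / g) := by
  classical
  set S := (Icc 1 Y).filter (fun v => g ∣ v) with hS
  have hcardle : ∀ n : ℕ, (((Icc 1 n).filter (fun z => g ∣ z)).card : ℝ) ≤ n / g := by
    intro n
    have h1 : (Icc 1 n).filter (fun z => g ∣ z) = (Ioc 0 n).filter (fun z => g ∣ z) := by
      ext z
      simp only [mem_filter, mem_Icc, mem_Ioc]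
      omega
    rw [h1, Nat.Ioc_filter_dvd_card_eq_div]
    exact Nat.cast_div_le
  have hgr : (0 : ℝ) < g := by exact_mod_cast hg
  have key : ∀ v ∈ S, ∑ z ∈ S.filter (fun z => z ≤ v), (g : ℝ) / v ≤ 1 := by
    intro v hv
    rw [hS, mem_filter, mem_Icc] at hv
    have hvr : (0 : ℝ) < v := by
      have : 0 < v := by omega
      exact_mod_cast this
    rw [sum_const, nsmul_eq_mul]
    have h2 : ((S.filter (fun z => z ≤ v)).card : ℝ) ≤ v / g := by
      refine le_trans ?_ (hcardle v)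
      exact_mod_cast Finset.card_le_card (by
        intro z hz
        rw [mem_filter, hS, mem_filter, mem_Icc] at hz
        rw [mem_filter, mem_Icc]
        omega)
    calc ((S.filter (fun z => z ≤ v)).card : ℝ) * (g / v) ≤ v / g * (g / v) := by gcongr
      _ = 1 := by field_simp
  have hsplit : ∀ v ∈ S, ∀ z ∈ S, (g : ℝ) / (max v z : ℕ) ≤
      (if z ≤ v then (g : ℝ) / v else 0) + (if v ≤ z then (g : ℝ) / z else 0) := by
    intro v hv z hz
    rcases le_total v z with h1 | h1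
    · rw [max_eq_right h1, if_pos h1]
      have : (0 : ℝ) ≤ (if z ≤ v then (g : ℝ) / v else 0) := by split_ifs <;> positivity
      linarith
    · rw [max_eq_left h1, if_pos h1]
      have : (0 : ℝ) ≤ (if v ≤ z then (g : ℝ) / z else 0) := by split_ifs <;> positivity
      linarith
  have hcS : (S.card : ℝ) ≤ Y / g := hcardle Y
  calc ∑ v ∈ S, ∑ z ∈ S, (g : ℝ) / (max v z : ℕ)
      ≤ ∑ v ∈ S, ∑ z ∈ S, ((if z ≤ v then (g : ℝ) / v else 0) + (if v ≤ z then (g : ℝ) / z else 0)) :=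
        Finset.sum_le_sum fun v hv => Finset.sum_le_sum fun z hz => hsplit v hv z hz
    _ = (∑ v ∈ S, ∑ z ∈ S, (if z ≤ v then (g : ℝ) / v else 0)) +
        ∑ v ∈ S, ∑ z ∈ S, (if v ≤ z then (g : ℝ) / z else 0) := by
        simp only [Finset.sum_add_distrib]
    _ = (∑ v ∈ S, ∑ z ∈ S, (if z ≤ v then (g : ℝ) / v else 0)) +
        ∑ z ∈ S, ∑ v ∈ S, (if v ≤ z then (g : ℝ) / z else 0) := by
        rw [Finset.sum_comm (s := S) (t := S) (f := fun v z => if v ≤ z then (g : ℝ) / z else 0)]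
    _ ≤ (∑ v ∈ S, (1 : ℝ)) + ∑ z ∈ S, (1 : ℝ) := by
        apply add_le_add
        · apply Finset.sum_le_sum
          intro v hv
          rw [← Finset.sum_filter]
          exact key v hv
        · apply Finset.sum_le_sum
          intro v hv
          rw [← Finset.sum_filter]
          exact key v hv
    _ = 2 * S.card := by rw [sum_const, nsmul_eq_mul]; ring
    _ ≤ 2 * (Y / g) := by linarith

/-- the number of solutions of `s² + t² - s'² - t'² = h` in the box -/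
theorem quad_card (M : ℕ) (h : ℤ) :
    ((quad M h).card : ℝ) ≤ 16 * M ^ 2 * ∑ g ∈ (Icc 1 (2 * M)).filter (fun g : ℕ => (g : ℤ) ∣ h), (1 : ℝ) / g := by
  classical
  set Y := 2 * M with hY
  -- decomposition into fibres
  have h1 : (quad M h).card ≤ ∑ v ∈ Icc 1 Y, ∑ z ∈ Icc 1 Y, (fib M h v z).card := by
    have hsub : quad M h ⊆ (Icc 1 Y).biUnion (fun v => (Icc 1 Y).biUnion (fun z => fib M h v z)) := by
      intro p hp
      have hp' := hp
      unfold quad at hp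
      rw [mem_filter, mem_product, mem_product, mem_product, mem_Icc, mem_Icc, mem_Icc, mem_Icc] at hp
      rw [mem_biUnion]
      refine ⟨p.1.1 + p.2.1, by rw [mem_Icc]; omega, ?_⟩
      rw [mem_biUnion]
      refine ⟨p.1.2 + p.2.2, by rw [mem_Icc]; omega, ?_⟩
      unfold fib
      rw [mem_filter]
      exact ⟨hp', rfl, rfl⟩
    refine (Finset.card_le_card hsub).trans ?_
    refine Finset.card_biUnion_le.trans ?_
    exact Finset.sum_le_sum fun v _ => Finset.card_biUnion_le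
  have h2 : ((quad M h).card : ℝ) ≤ ∑ v ∈ Icc 1 Y, ∑ z ∈ Icc 1 Y, ((fib M h v z).card : ℝ) := by exact_mod_cast h1
  refine h2.trans ?_
  set G := (Icc 1 Y).filter (fun g : ℕ => (g : ℤ) ∣ h) with hG
  have h3 : ∀ v ∈ Icc 1 Y, ∀ z ∈ Icc 1 Y, ((fib M h v z).card : ℝ) ≤
      ∑ g ∈ G, if g ∣ v ∧ g ∣ z then 4 * (M : ℝ) * ((g : ℝ) / (max v z : ℕ)) else 0 := by
    intro v hv z hz
    rw [mem_Icc] at hv hz
    rcases (fib M h v z).eq_empty_or_nonempty with he | ⟨p, hp⟩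
    · rw [he, card_empty, Nat.cast_zero]
      apply Finset.sum_nonneg
      intro g _
      split_ifs <;> positivity
    · have hgd := gcd_dvd_of_mem hp
      have hgG : Nat.gcd v z ∈ G := by
        rw [hG, mem_filter, mem_Icc]
        refine ⟨⟨Nat.gcd_pos_of_pos_left _ (by omega), ?_⟩, hgd⟩
        exact (Nat.gcd_le_left z (by omega)).trans hv.2
      refine (fib_card M h v z hv.1 hv.2 hz.1 hz.2).trans ?_
      have h4 := Finset.single_le_sum (s := G)
        (f := fun g : ℕ => if g ∣ v ∧ g ∣ z then 4 * (M : ℝ) * ((g : ℝ) / (max v z : ℕ)) else 0)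
        (fun g _ => by split_ifs <;> positivity) hgG
      refine le_trans (le_of_eq ?_) h4
      rw [if_pos ⟨Nat.gcd_dvd_left v z, Nat.gcd_dvd_right v z⟩]
      ring
  calc ∑ v ∈ Icc 1 Y, ∑ z ∈ Icc 1 Y, ((fib M h v z).card : ℝ)
      ≤ ∑ v ∈ Icc 1 Y, ∑ z ∈ Icc 1 Y,
        ∑ g ∈ G, (if g ∣ v ∧ g ∣ z then 4 * (M : ℝ) * ((g : ℝ) / (max v z : ℕ)) else 0) :=
        Finset.sum_le_sum fun v hv => Finset.sum_le_sum fun z hz => h3 v hv z hz
    _ = ∑ g ∈ G, ∑ v ∈ Icc 1 Y, ∑ z ∈ Icc 1 Y,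
        (if g ∣ v ∧ g ∣ z then 4 * (M : ℝ) * ((g : ℝ) / (max v z : ℕ)) else 0) := by
        exact (Finset.sum_congr rfl fun v _ => Finset.sum_comm).trans Finset.sum_comm
    _ = ∑ g ∈ G, 4 * (M : ℝ) * ∑ v ∈ (Icc 1 Y).filter (fun v => g ∣ v), ∑ z ∈ (Icc 1 Y).filter (fun z => g ∣ z),
        (g : ℝ) / (max v z : ℕ) := by
        apply Finset.sum_congr rfl
        intro g _
        rw [Finset.mul_sum, Finset.sum_filter]
        apply Finset.sum_congr rfl
        intro v _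
        by_cases hv : g ∣ v
        · rw [if_pos hv, Finset.mul_sum, Finset.sum_filter]
          apply Finset.sum_congr rfl
          intro z _
          by_cases hz : g ∣ z
          · rw [if_pos ⟨hv, hz⟩, if_pos hz]
          · rw [if_neg (fun hc => hz hc.2), if_neg hz]
        · rw [if_neg hv]
          apply Finset.sum_eq_zero
          intro z _
          rw [if_neg (fun hc => hv hc.1)]
    _ ≤ ∑ g ∈ G, 4 * (M : ℝ) * (2 * ((Y : ℝ) / g)) := by
        apply Finset.sum_le_sum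
        intro g hg
        rw [hG, mem_filter, mem_Icc] at hg
        have := sum_max Y g (by omega)
        gcongr
    _ = 16 * M ^ 2 * ∑ g ∈ G, (1 : ℝ) / g := by
        rw [Finset.mul_sum]
        apply Finset.sum_congr rfl
        intro g _
        rw [hY]
        push_cast
        ring

end Pool.Agent.R154.FS
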